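import Pool.Agent.MP_d3d6ea_lc.Inst

/-!
The generators are computable in the parameter.
-/

set_option autoImplicit false

open MvPolynomial Finset Pool.Agent.DPRM

namespace Pool.Agent.MP_d3d6ea_lc

/-- Codes of polynomials. -/
abbrev Code' := List (List ℕ × ℕ × ℕ)

/-- The polynomial with a given code, as in the frozen statement. -/
noncomputable def dec (p : Code') : MvPolynomial ℕ ℚ :=
  (p.map (fun t => MvPolynomial.C ((t.2.1 : ℚ) - (t.2.2 : ℚ)) *
    (t.1.map (MvPolynomial.X : ℕ → MvPolynomial ℕ ℚ)).prod)).sum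

lemma dec_nil : dec [] = 0 := rfl

lemma dec_cons (t : List ℕ × ℕ × ℕ) (p : Code') : dec (t :: p) =
    MvPolynomial.C ((t.2.1 : ℚ) - (t.2.2 : ℚ)) *
    (t.1.map (MvPolynomial.X : ℕ → MvPolynomial ℕ ℚ)).prod + dec p := by
  simp [dec]

lemma dec_append (p q : Code') : dec (p ++ q) = dec p + dec q := by
  simp [dec]

/-- Code of the negative. -/
def negE (p : Code') : Code' := p.map fun t => (t.1, t.2.2, t.2.1)

lemma dec_negE (p : Code') : dec (negE p) = - dec p := by
  induction p with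
  | nil => simp [negE, dec]
  | cons t p ih =>
    have : negE (t :: p) = (t.1, t.2.2, t.2.1) :: negE p := rfl
    rw [this, dec_cons, dec_cons, ih]
    simp only [map_sub]
    ring

/-- Code of the product with a term. -/
def mulT (s : List ℕ × ℕ × ℕ) (q : Code') : Code' :=
  q.map fun t => (s.1 ++ t.1, s.2.1 * t.2.1 + s.2.2 * t.2.2, s.2.1 * t.2.2 + s.2.2 * t.2.1)

lemma dec_mulT (s : List ℕ × ℕ × ℕ) (q : Code') : dec (mulT s q) =
    (MvPolynomial.C ((s.2.1 : ℚ) - (s.2.2 : ℚ)) *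
    (s.1.map (MvPolynomial.X : ℕ → MvPolynomial ℕ ℚ)).prod) * dec q := by
  induction q with
  | nil => simp [mulT, dec]
  | cons t q ih =>
    have : mulT s (t :: q) = (s.1 ++ t.1, s.2.1 * t.2.1 + s.2.2 * t.2.2,
      s.2.1 * t.2.2 + s.2.2 * t.2.1) :: mulT s q := rfl
    rw [this, dec_cons, dec_cons, ih]
    push_cast
    simp only [map_sub, map_add, map_mul, List.map_append, List.prod_append]
    ring

/-- Code of the product. -/
def mulE (p q : Code') : Code' := p.flatMap fun s => mulT s q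

lemma dec_mulE (p q : Code') : dec (mulE p q) = dec p * dec q := by
  induction p with
  | nil => simp [mulE, dec]
  | cons s p ih =>
    have : mulE (s :: p) q = mulT s q ++ mulE p q := rfl
    rw [this, dec_append, dec_mulT, ih, dec_cons]
    ring

/-- Polynomials depending primitive recursively on a parameter. -/
def PD (g : ℕ → MvPolynomial ℕ ℚ) : Prop := ∃ p : ℕ → Code', Primrec p ∧ ∀ n, dec (p n) = g n

lemma PD.congr {g h : ℕ → MvPolynomial ℕ ℚ} (hg : PD g) (e : ∀ n, h n = g n) : PD h := by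
  obtain ⟨p, hp, hd⟩ := hg
  exact ⟨p, hp, fun n => by beta_reduce; rw [hd, e]⟩

lemma PD.X (i : ℕ) : PD fun _ => MvPolynomial.X i :=
  ⟨fun _ => [([i], 1, 0)], Primrec.const _, fun n => by simp [dec]⟩

lemma PD.int (c : ℤ) : PD fun _ => MvPolynomial.C (c : ℚ) := by
  refine ⟨fun _ => [([], c.toNat, (-c).toNat)], Primrec.const _, fun n => ?_⟩
  have : ((c.toNat : ℕ) : ℚ) - (((-c).toNat : ℕ) : ℚ) = c := by
    have h : ((c.toNat : ℕ) : ℤ) - (((-c).toNat : ℕ) : ℤ) = c := by omega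
    exact_mod_cast h
  rw [dec_cons]
  simp only [List.map_nil, List.prod_nil, mul_one, this, dec_nil, add_zero]

lemma PD.nat : PD fun n => MvPolynomial.C (((n : ℤ) : ℚ)) := by
  refine ⟨fun n => [([], n, 0)], ?_, fun n => by simp [dec]⟩
  exact Primrec.list_cons.comp ((Primrec.const []).pair (Primrec.id.pair (Primrec.const 0)))
    (Primrec.const [])

lemma PD.add {g h : ℕ → MvPolynomial ℕ ℚ} (hg : PD g) (hh : PD h) : PD fun n => g n + h n := by
  obtain ⟨p, hp, hd⟩ := hg
  obtain ⟨q, hq, he⟩ := hh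
  exact ⟨fun n => p n ++ q n, Primrec.list_append.comp hp hq,
    fun n => by rw [dec_append, hd, he]⟩

lemma PD.neg {g : ℕ → MvPolynomial ℕ ℚ} (hg : PD g) : PD fun n => - g n := by
  obtain ⟨p, hp, hd⟩ := hg
  refine ⟨fun n => negE (p n), ?_, fun n => by beta_reduce; rw [dec_negE, hd]⟩
  refine Primrec.list_map hp ?_
  have h : Primrec fun q : ℕ × (List ℕ × ℕ × ℕ) => q.2 := Primrec.snd
  exact (Primrec.fst.comp h).pair ((Primrec.snd.comp (Primrec.snd.comp h)).pair
    (Primrec.fst.comp (Primrec.snd.comp h)))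

lemma PD.sub {g h : ℕ → MvPolynomial ℕ ℚ} (hg : PD g) (hh : PD h) : PD fun n => g n - h n :=
  (hg.add hh.neg).congr fun n => sub_eq_add_neg _ _

lemma PD.mul {g h : ℕ → MvPolynomial ℕ ℚ} (hg : PD g) (hh : PD h) : PD fun n => g n * h n := by
  obtain ⟨p, hp, hd⟩ := hg
  obtain ⟨q, hq, he⟩ := hh
  refine ⟨fun n => mulE (p n) (q n), ?_, fun n => by beta_reduce; rw [dec_mulE, hd, he]⟩
  refine Primrec.list_flatMap hp ?_
  show Primrec fun r : ℕ × (List ℕ × ℕ × ℕ) => mulT r.2 (q r.1)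
  refine Primrec.list_map (hq.comp Primrec.fst) ?_
  have hs : Primrec fun r : (ℕ × (List ℕ × ℕ × ℕ)) × (List ℕ × ℕ × ℕ) => r.1.2 :=
    Primrec.snd.comp Primrec.fst
  have ht : Primrec fun r : (ℕ × (List ℕ × ℕ × ℕ)) × (List ℕ × ℕ × ℕ) => r.2 := Primrec.snd
  have hs1 := Primrec.fst.comp hs
  have hs2 := Primrec.fst.comp (Primrec.snd.comp hs)
  have hs3 := Primrec.snd.comp (Primrec.snd.comp hs)
  have ht1 := Primrec.fst.comp ht
  have ht2 := Primrec.fst.comp (Primrec.snd.comp ht)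
  have ht3 := Primrec.snd.comp (Primrec.snd.comp ht)
  exact (Primrec.list_append.comp hs1 ht1).pair
    ((Primrec.nat_add.comp (Primrec.nat_mul.comp hs2 ht2) (Primrec.nat_mul.comp hs3 ht3)).pair
      (Primrec.nat_add.comp (Primrec.nat_mul.comp hs2 ht3) (Primrec.nat_mul.comp hs3 ht2)))

lemma PD.sum {ι : Type} (s : Finset ι) {g : ι → ℕ → MvPolynomial ℕ ℚ} (hg : ∀ i, PD (g i)) :
    PD fun n => ∑ i ∈ s, g i n := by
  classical
  induction s using Finset.induction_on with
  | empty => exact (PD.int 0).congr fun n => by simp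
  | insert a s ha ih =>
    exact ((hg a).add ih).congr fun n => by beta_reduce; rw [Finset.sum_insert ha]

lemma PD.z (i : ℕ) : PD fun _ => z i :=
  ((PD.X i).sub (PD.int 1)).congr fun _ => by simp [Pool.Agent.MP_d3d6ea_lc.z]

/-- Lists of polynomials depending primitive recursively on a parameter. -/
def PL (l : ℕ → List (MvPolynomial ℕ ℚ)) : Prop :=
  ∃ gs : List (ℕ → MvPolynomial ℕ ℚ), (∀ g ∈ gs, PD g) ∧ ∀ n, l n = gs.map fun g => g n

lemma PL.code {l : ℕ → List (MvPolynomial ℕ ℚ)} (hl : PL l) :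
    ∃ L : ℕ → List Code', Primrec L ∧ ∀ n, (L n).map dec = l n := by
  obtain ⟨gs, hgs, hl⟩ := hl
  have : ∃ L : ℕ → List Code', Primrec L ∧ ∀ n, (L n).map dec = gs.map fun g => g n := by
    clear hl
    induction gs with
    | nil => exact ⟨fun _ => [], Primrec.const _, fun n => rfl⟩
    | cons g gs ih =>
      obtain ⟨L, hL, hd⟩ := ih fun g hg => hgs g (List.mem_cons_of_mem _ hg)
      obtain ⟨p, hp, he⟩ := hgs g List.mem_cons_self
      exact ⟨fun n => p n :: L n, Primrec.list_cons.comp hp hL, fun n => by simp [hd, he]⟩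
  obtain ⟨L, hL, hd⟩ := this
  exact ⟨L, hL, fun n => by beta_reduce; rw [hd, hl]⟩

lemma PL.map {γ : Type} (s : List γ) {g : γ → ℕ → MvPolynomial ℕ ℚ} (hg : ∀ t, PD (g t)) :
    PL fun n => s.map fun t => g t n := by
  refine ⟨s.map g, fun f hf => ?_, fun n => by simp⟩
  obtain ⟨t, -, rfl⟩ := List.mem_map.1 hf
  exact hg t

lemma PL.append {l l' : ℕ → List (MvPolynomial ℕ ℚ)} (hl : PL l) (hl' : PL l') :
    PL fun n => l n ++ l' n := by
  obtain ⟨gs, hgs, hl⟩ := hl
  obtain ⟨gs', hgs', hl'⟩ := hl'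
  refine ⟨gs ++ gs', fun f hf => ?_, fun n => by beta_reduce; rw [hl, hl', List.map_append]⟩
  rcases List.mem_append.1 hf with hf | hf
  · exact hgs f hf
  · exact hgs' f hf

lemma PL.cons {l : ℕ → List (MvPolynomial ℕ ℚ)} {g : ℕ → MvPolynomial ℕ ℚ} (hg : PD g)
    (hl : PL l) : PL fun n => g n :: l n := by
  obtain ⟨gs, hgs, hl⟩ := hl
  refine ⟨g :: gs, fun f hf => ?_, fun n => by beta_reduce; rw [hl, List.map_cons]⟩
  rcases List.mem_cons.1 hf with rfl | hf
  · exact hg
  · exact hgs f hf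

lemma PL.mul {l l' : ℕ → List (MvPolynomial ℕ ℚ)} (hl : PL l) (hl' : PL l') :
    PL fun n => (l n).flatMap fun g => (l' n).map fun h => g * h := by
  obtain ⟨gs, hgs, hl⟩ := hl
  obtain ⟨gs', hgs', hl'⟩ := hl'
  refine ⟨gs.flatMap fun g => gs'.map fun h => fun n => g n * h n, fun f hf => ?_, fun n => ?_⟩
  · simp only [List.mem_flatMap, List.mem_map] at hf
    obtain ⟨g, hg, h, hh, rfl⟩ := hf
    exact (hgs g hg).mul (hgs' h hh)
  · beta_reduce
    rw [hl, hl']
    simp only [List.map_flatMap, List.flatMap_map, List.map_map, Function.comp_def]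

/-- Integers depending nicely on the parameter. -/
def PI' (h : ℕ → ℤ) : Prop := PD fun n => MvPolynomial.C (h n : ℚ)

lemma PI'.const (c : ℤ) : PI' fun _ => c := PD.int c

lemma PI'.nat : PI' fun n => (n : ℤ) := PD.nat

lemma PI'.add {g h : ℕ → ℤ} (hg : PI' g) (hh : PI' h) : PI' fun n => g n + h n :=
  (PD.add hg hh).congr fun n => by beta_reduce; push_cast; rw [map_add]

lemma PI'.mul {g h : ℕ → ℤ} (hg : PI' g) (hh : PI' h) : PI' fun n => g n * h n :=
  (PD.mul hg hh).congr fun n => by beta_reduce; push_cast; rw [map_mul]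

lemma PI'.neg {g : ℕ → ℤ} (hg : PI' g) : PI' fun n => - g n :=
  (PD.neg hg).congr fun n => by beta_reduce; push_cast; rw [map_neg]

lemma PI_pol (E : List (ℕ × ℕ × ℕ × ℕ)) (K : ℕ) (j : Idx E.length) (i k : ℕ) :
    PI' fun n => pol (FF E K n j) i k := by
  cases j with
  | par =>
    have h : ∀ n : ℕ, pol (FF E K n .par) i k =
        pol [(-1, 0, 8 + K), (1, 0, 8)] i k + (n : ℤ) * pol [(-1, 0, 0)] i k := by
      intro n
      show pol [(-1, 0, 8 + K), (1, 0, 8), (-(n : ℤ), 0, 0)] i k = _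
      simp only [pol_cons, pol_nil]
      ring
    simp only [h]
    exact PI'.add (PI'.const _) (PI'.mul PI'.nat (PI'.const _))
  | eqn j => exact PI'.const (pol (FF E K 0 (.eqn j)) i k)
  | ssum => exact PI'.const (pol (FF E K 0 .ssum) i k)
  | lag => exact PI'.const (pol (FF E K 0 .lag) i k)
  | pell => exact PI'.const (pol (FF E K 0 .pell) i k)

lemma PD_om {L : ℕ} (K : ℕ) (j : Idx L) : PD fun _ => om (pv L K) (kp L) j :=
  (PD.int (kp L j)).mul ((PD.z _).mul (PD.z _))

lemma PD_quad (E : List (ℕ × ℕ × ℕ × ℕ)) (K : ℕ) (i k : ℕ) :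
    PD fun n => quad (FF E K n) (pv E.length K) (kp E.length) i k := by
  refine (((PD.int 2).mul ((PD.z i).mul (PD.z k))).sub
    (PD.sum Finset.univ fun j => PD.mul (PI_pol E K j i k) (PD_om K j))).congr fun n => ?_
  unfold quad
  rw [show (C ((2 : ℤ) : ℚ) : MvPolynomial ℕ ℚ) = 2 by rw [Int.cast_ofNat, map_ofNat]]

lemma PL_gens (E : List (ℕ × ℕ × ℕ × ℕ)) (K N : ℕ) :
    PL fun n => gens N (FF E K n) (pv E.length K) (kp E.length) := by
  unfold gens G1 H
  refine PL.mul (PL.append (PL.map _ fun t => ((PD.z _).mul (PD.z _)).mul (PD.z _))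
    (PL.map _ fun t => PD_quad E K _ _)) (PL.cons ?_ (PL.map _ fun t => PD.z _))
  exact ((PD.X 0).add (PD.int 2)).congr fun n => by
    rw [show (C ((2 : ℤ) : ℚ) : MvPolynomial ℕ ℚ) = 2 by rw [Int.cast_ofNat, map_ofNat]]

/-- **Main theorem**: it is undecidable whether an ideal contains a nonzero polynomial with at
most three terms. -/
theorem undecidable :
    ¬ (ComputablePred (fun L : List (List (List ℕ × ℕ × ℕ)) =>
      ∃ f ∈ Ideal.span {q : MvPolynomial ℕ ℚ | q ∈ L.map (fun p =>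
          (p.map (fun t => MvPolynomial.C ((t.2.1 : ℚ) - (t.2.2 : ℚ)) *
            (t.1.map (MvPolynomial.X : ℕ → MvPolynomial ℕ ℚ)).prod)).sum)},
        f ≠ 0 ∧ f.support.card ≤ 3)) := by
  intro h
  obtain ⟨E, hE⟩ := fixed_elem_undecidable_int
  apply hE
  obtain ⟨K, hK, hb⟩ : ∃ K, 0 < K ∧ ∀ e ∈ E, Below K e := by
    clear hE
    induction E with
    | nil => exact ⟨1, by norm_num, by simp⟩
    | cons e E ih =>
      obtain ⟨K, hK, hb⟩ := ih
      refine ⟨K + e.2.1 + e.2.2.1 + e.2.2.2 + 1, by omega, fun e' he' => ?_⟩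
      rcases List.mem_cons.1 he' with rfl | he'
      · exact ⟨by omega, by omega, by omega⟩
      · exact (hb e' he').mono (by omega)
  obtain ⟨L, hL, hd⟩ := (PL_gens E K (9 + K + E.length)).code
  refine ComputablePred.computable_of_manyOneReducible
    (⟨L, hL.to_comp, fun n => ?_⟩ : ManyOneReducible _ _) h
  rw [← trinomial_iff hb hK n, ← hd n]
  rfl

end Pool.Agent.MP_d3d6ea_lc
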