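import Mathlib

/-!
Quadratic forms as lists of terms, and linear functionals on the polynomial ring.
-/

set_option autoImplicit false

open MvPolynomial Finset

namespace Pool.Agent.MP_d3d6ea_lc

/-- A quadratic form with integer coefficients: a list of terms `(c, i, k)` standing for
`c * a i * a k`. -/
abbrev Form := List (ℤ × ℕ × ℕ)

/-- The value of a form at a vector. -/
def ev {R : Type} [CommRing R] (l : Form) (a : ℕ → R) : R :=
  (l.map fun t => (t.1 : R) * (a t.2.1 * a t.2.2)).sum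

/-- The coefficients of the polar form. -/
def pol (l : Form) (i k : ℕ) : ℤ :=
  (l.map fun t => t.1 * ((if i = t.2.1 then 1 else 0) * (if k = t.2.2 then 1 else 0) +
    (if i = t.2.2 then 1 else 0) * (if k = t.2.1 then 1 else 0))).sum

/-- All indices of the form are below `N`. -/
def Bd (N : ℕ) (l : Form) : Prop := ∀ t ∈ l, t.2.1 < N ∧ t.2.2 < N

@[simp] lemma ev_nil {R : Type} [CommRing R] (a : ℕ → R) : ev [] a = 0 := rfl

@[simp] lemma ev_cons {R : Type} [CommRing R] (t : ℤ × ℕ × ℕ) (l : Form) (a : ℕ → R) :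
    ev (t :: l) a = (t.1 : R) * (a t.2.1 * a t.2.2) + ev l a := by
  simp [ev]

@[simp] lemma pol_nil (i k : ℕ) : pol [] i k = 0 := rfl

@[simp] lemma pol_cons (t : ℤ × ℕ × ℕ) (l : Form) (i k : ℕ) :
    pol (t :: l) i k = t.1 * ((if i = t.2.1 then 1 else 0) * (if k = t.2.2 then 1 else 0) +
    (if i = t.2.2 then 1 else 0) * (if k = t.2.1 then 1 else 0)) + pol l i k := by
  simp [pol]

lemma ev_append {R : Type} [CommRing R] (l l' : Form) (a : ℕ → R) :
    ev (l ++ l') a = ev l a + ev l' a := by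
  simp [ev]

lemma pol_append (l l' : Form) (i k : ℕ) : pol (l ++ l') i k = pol l i k + pol l' i k := by
  simp [pol]

lemma Bd.tail {N : ℕ} {t : ℤ × ℕ × ℕ} {l : Form} (h : Bd N (t :: l)) : Bd N l :=
  fun s hs => h s (List.mem_cons_of_mem _ hs)

lemma Bd.head {N : ℕ} {t : ℤ × ℕ × ℕ} {l : Form} (h : Bd N (t :: l)) :
    t.2.1 < N ∧ t.2.2 < N := h t List.mem_cons_self

lemma Bd.append {N : ℕ} {l l' : Form} (h : Bd N l) (h' : Bd N l') : Bd N (l ++ l') := by
  intro t ht
  rcases List.mem_append.1 ht with ht | ht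
  · exact h t ht
  · exact h' t ht

lemma ev_cast {R : Type} [CommRing R] (l : Form) (a : ℕ → ℤ) :
    ((ev l a : ℤ) : R) = ev l (fun i => (a i : R)) := by
  induction l with
  | nil => simp
  | cons t l ih => simp [ih]

/-- The double sum of the polar coefficients is twice the form. -/
lemma sum_pol {R : Type} [CommRing R] {N : ℕ} (l : Form) (hl : Bd N l) (a : ℕ → R) :
    ∑ i ∈ range N, ∑ k ∈ range N, (pol l i k : R) * (a i * a k) = 2 * ev l a := by
  induction l with
  | nil => simp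
  | cons t l ih =>
    have h1 := hl.head.1
    have h2 := hl.head.2
    have e1 : ∀ p q : ℕ, p < N → q < N → ∑ i ∈ range N, ∑ k ∈ range N,
        ((t.1 : R) * (((if i = p then 1 else 0) * (if k = q then 1 else 0)) * (a i * a k))) =
        (t.1 : R) * (a p * a q) := by
      intro p q hp hq
      rw [Finset.sum_eq_single p, Finset.sum_eq_single q]
      · simp
      · intro k _ hk
        simp [hk]
      · intro h
        exact absurd (mem_range.2 hq) h
      · intro i _ hi
        simp [hi]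
      · intro h
        exact absurd (mem_range.2 hp) h
    have e2 := e1 _ _ h1 h2
    have e3 := e1 _ _ h2 h1
    have e4 : ∀ i k : ℕ, (pol (t :: l) i k : R) * (a i * a k) =
        ((t.1 : R) * (((if i = t.2.1 then 1 else 0) * (if k = t.2.2 then 1 else 0)) *
          (a i * a k))) +
        ((t.1 : R) * (((if i = t.2.2 then 1 else 0) * (if k = t.2.1 then 1 else 0)) *
          (a i * a k))) + (pol l i k : R) * (a i * a k) := by
      intro i k
      rw [pol_cons]
      push_cast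
      ring
    simp only [e4, Finset.sum_add_distrib]
    rw [e2, e3, ih hl.tail, ev_cons]
    ring

/-- The second difference of a form is its polar coefficient. -/
lemma ev_diff {R : Type} [CommRing R] (l : Form) (a : ℕ → R) (i k : ℕ) :
    ev l (fun m => a m + (if i = m then 1 else 0) + (if k = m then 1 else 0)) -
      ev l (fun m => a m + (if i = m then 1 else 0)) -
      ev l (fun m => a m + (if k = m then 1 else 0)) + ev l a = (pol l i k : R) := by
  induction l with
  | nil => simp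
  | cons t l ih =>
    rw [pol_cons]
    push_cast
    rw [← ih]
    simp only [ev_cons]
    ring

/-- The form on a difference, from a three-term relation. -/
lemma ev_three {N : ℕ} (l : Form) (hl : Bd N l) (c1 c2 c3 : ℚ) (u1 u2 u3 : ℕ → ℚ)
    (h0 : c1 + c2 + c3 = 0) (h1 : ∀ i < N, c1 * u1 i + c2 * u2 i + c3 * u3 i = 0) :
    c3 * (c1 * ev l u1 + c2 * ev l u2 + c3 * ev l u3) =
      - (c1 * c2) * ev l (fun i => u2 i - u1 i) := by
  induction l with
  | nil => simp
  | cons t l ih =>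
    have h2 := h1 _ hl.head.1
    have h3 := h1 _ hl.head.2
    have ih' := ih hl.tail
    simp only [ev_cons]
    have e1 : c3 = -(c1 + c2) := by linarith
    have e2 : c3 * u3 t.2.1 = -(c1 * u1 t.2.1 + c2 * u2 t.2.1) := by linarith
    have e3 : c3 * u3 t.2.2 = -(c1 * u1 t.2.2 + c2 * u2 t.2.2) := by linarith
    have e4 : c3 * (c1 * (u1 t.2.1 * u1 t.2.2) + c2 * (u2 t.2.1 * u2 t.2.2) +
        c3 * (u3 t.2.1 * u3 t.2.2)) =
        - (c1 * c2) * ((u2 t.2.1 - u1 t.2.1) * (u2 t.2.2 - u1 t.2.2)) := by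
      have : c3 * (c1 * (u1 t.2.1 * u1 t.2.2) + c2 * (u2 t.2.1 * u2 t.2.2) +
        c3 * (u3 t.2.1 * u3 t.2.2)) = c3 * (c1 * (u1 t.2.1 * u1 t.2.2) +
          c2 * (u2 t.2.1 * u2 t.2.2)) + (c3 * u3 t.2.1) * (c3 * u3 t.2.2) := by ring
      rw [this, e2, e3, e1]
      ring
    linear_combination (t.1 : ℚ) * e4 + ih'

/-! ### Functionals -/

/-- The linear functional with value `φ u` at the monomial with exponent `u`. -/
noncomputable def Lam (φ : (ℕ →₀ ℕ) → ℚ) : MvPolynomial ℕ ℚ →ₗ[ℚ] ℚ :=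
  (MvPolynomial.basisMonomials ℕ ℚ).constr ℚ φ

lemma Lam_monomial (φ : (ℕ →₀ ℕ) → ℚ) (u : ℕ →₀ ℕ) (c : ℚ) : Lam φ (monomial u c) = c * φ u := by
  have h : (monomial u c : MvPolynomial ℕ ℚ) = c • (MvPolynomial.basisMonomials ℕ ℚ) u := by
    rw [coe_basisMonomials, smul_monomial, smul_eq_mul, mul_one]
  rw [h, map_smul, Lam, Module.Basis.constr_basis, smul_eq_mul]

lemma Lam_apply (φ : (ℕ →₀ ℕ) → ℚ) (f : MvPolynomial ℕ ℚ) :
    Lam φ f = ∑ u ∈ f.support, coeff u f * φ u := by
  conv_lhs => rw [f.as_sum]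
  rw [map_sum]
  exact Finset.sum_congr rfl fun u _ => Lam_monomial _ _ _

lemma Lam_ext {φ ψ : (ℕ →₀ ℕ) → ℚ} (h : ∀ u, φ u = ψ u) : Lam φ = Lam ψ := by
  rw [funext h]

lemma Lam_smul (c : ℚ) (φ : (ℕ →₀ ℕ) → ℚ) (f : MvPolynomial ℕ ℚ) :
    Lam (fun u => c * φ u) f = c * Lam φ f := by
  simp only [Lam_apply, Finset.mul_sum]
  exact Finset.sum_congr rfl fun u _ => by ring

/-- Difference operator. -/
noncomputable def del (i : ℕ) (φ : (ℕ →₀ ℕ) → ℚ) : (ℕ →₀ ℕ) → ℚ :=
  fun u => φ (u + Finsupp.single i 1) - φ u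

lemma Lam_X_mul (φ : (ℕ →₀ ℕ) → ℚ) (i : ℕ) (f : MvPolynomial ℕ ℚ) :
    Lam φ (X i * f) = Lam (fun u => φ (u + Finsupp.single i 1)) f := by
  induction f using MvPolynomial.induction_on' with
  | monomial u c =>
    have : (X i * monomial u c : MvPolynomial ℕ ℚ) = monomial (u + Finsupp.single i 1) c := by
      rw [mul_comm, X, monomial_mul, mul_one]
    rw [this, Lam_monomial, Lam_monomial]
  | add p q hp hq => rw [mul_add, map_add, map_add, hp, hq]

/-- The polynomial `x_i - 1`. -/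
noncomputable def z (i : ℕ) : MvPolynomial ℕ ℚ := X i - 1

lemma Lam_z_mul (φ : (ℕ →₀ ℕ) → ℚ) (i : ℕ) (f : MvPolynomial ℕ ℚ) :
    Lam φ (z i * f) = Lam (del i φ) f := by
  have h : Lam (del i φ) f = Lam (fun u => φ (u + Finsupp.single i 1)) f - Lam φ f := by
    simp only [Lam_apply, del, mul_sub, Finset.sum_sub_distrib]
  rw [h, z, sub_mul, one_mul, map_sub, Lam_X_mul]

/-- The ideal annihilated by a functional and all its translates. -/
noncomputable def Ann (φ : (ℕ →₀ ℕ) → ℚ) : Ideal (MvPolynomial ℕ ℚ) where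
  carrier := {f | ∀ h, Lam φ (f * h) = 0}
  add_mem' := by
    intro a b ha hb h
    rw [add_mul, map_add, ha h, hb h, add_zero]
  zero_mem' := by
    intro h
    simp
  smul_mem' := by
    intro c f hf h
    have := hf (c * h)
    rw [smul_eq_mul]
    rw [← this]
    congr 1
    ring

lemma mem_Ann {φ : (ℕ →₀ ℕ) → ℚ} {f : MvPolynomial ℕ ℚ} :
    f ∈ Ann φ ↔ ∀ h, Lam φ (f * h) = 0 := Iff.rfl

lemma Lam_eq_zero {φ : (ℕ →₀ ℕ) → ℚ} {f : MvPolynomial ℕ ℚ} (h : f ∈ Ann φ) : Lam φ f = 0 := by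
  have := h 1
  rwa [mul_one] at this

end Pool.Agent.MP_d3d6ea_lc
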