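import Pool.Agent.MP_d3d6ea_lc.Pos
import Pool.Agent.DPRM.Interface

/-!
The forms attached to a system of elementary equations.
-/

set_option autoImplicit false

open MvPolynomial Finset Pool.Agent.DPRM

namespace Pool.Agent.MP_d3d6ea_lc

/-- Indices of the forms. -/
inductive Idx (L : ℕ) : Type
  | par
  | eqn (j : Fin L)
  | ssum
  | lag
  | pell
  deriving DecidableEq, Fintype

/-- Homogenised elementary equation. -/
def hE (e : ℕ × ℕ × ℕ × ℕ) : Form :=
  if e.1 = 0 then [(1, 0, 8 + e.2.1), (-1, 0, 0)]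
  else if e.1 = 1 then [(1, 0, 8 + e.2.1), (1, 0, 8 + e.2.2.1), (-1, 0, 8 + e.2.2.2)]
  else [(1, 8 + e.2.1, 8 + e.2.2.1), (-1, 0, 8 + e.2.2.2)]

/-- The pivots. -/
def pv (L K : ℕ) : Idx L → ℕ × ℕ
  | .par => (0, 8 + K)
  | .eqn j => (0, 9 + K + j)
  | .ssum => (7, 7)
  | .lag => (3, 3)
  | .pell => (1, 1)

/-- The coefficients of the pivots. -/
def cf (L : ℕ) : Idx L → ℤ
  | .par => -1
  | .eqn _ => -1
  | .ssum => 1
  | .lag => -1
  | .pell => 1

/-- The forms without their pivot term. -/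
def tl (E : List (ℕ × ℕ × ℕ × ℕ)) (K : ℕ) (n : ℕ) : Idx E.length → Form
  | .par => (1, 0, 8) :: (-(n : ℤ), 0, 0) :: []
  | .eqn j => hE (E.get j)
  | .ssum => (List.range (E.length + 1)).map fun j => (1, 8 + K + j, 8 + K + j)
  | .lag => (1, 2, 2) :: (-1, 4, 4) :: (-1, 5, 5) :: (-1, 6, 6) ::
      (List.range K).map fun i => (-1, 8 + i, 8 + i)
  | .pell => (-2, 2, 2) :: (-1, 0, 0) :: []

/-- The forms. -/
def FF (E : List (ℕ × ℕ × ℕ × ℕ)) (K : ℕ) (n : ℕ) (j : Idx E.length) : Form :=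
  (cf E.length j, (pv E.length K j).1, (pv E.length K j).2) :: tl E K n j

/-- The normalising factors. -/
def kp (L : ℕ) : Idx L → ℤ
  | .par => -2
  | .eqn _ => -2
  | .ssum => 1
  | .lag => -1
  | .pell => 1

lemma hE_mem {e : ℕ × ℕ × ℕ × ℕ} {K : ℕ} (he : Below K e) {t : ℤ × ℕ × ℕ} (ht : t ∈ hE e) :
    (t.2.1 = 0 ∨ (8 ≤ t.2.1 ∧ t.2.1 < 8 + K)) ∧ (t.2.2 = 0 ∨ (8 ≤ t.2.2 ∧ t.2.2 < 8 + K)) := by
  obtain ⟨h1, h2, h3⟩ := he
  unfold hE at ht
  split_ifs at ht
  · simp only [List.mem_cons, List.not_mem_nil, or_false] at ht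
    rcases ht with rfl | rfl
    · simp; omega
    · simp
  · simp only [List.mem_cons, List.not_mem_nil, or_false] at ht
    rcases ht with rfl | rfl | rfl
    · simp; omega
    · simp; omega
    · simp; omega
  · simp only [List.mem_cons, List.not_mem_nil, or_false] at ht
    rcases ht with rfl | rfl
    · simp; omega
    · simp; omega

lemma ev_hE (e : ℕ × ℕ × ℕ × ℕ) (a : ℕ → ℤ) (h0 : a 0 = 1) :
    ev (hE e) a = 0 ↔ Holds (fun i => a (8 + i)) e := by
  unfold hE Holds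
  split_ifs
  · simp [h0, add_neg_eq_zero]
  · simp only [ev_cons, ev_nil, h0]
    push_cast
    constructor
    · intro h; linarith
    · intro h; linarith
  · simp only [ev_cons, ev_nil, h0]
    push_cast
    constructor
    · intro h; linarith
    · intro h; linarith

lemma pol_zero {l : Form} {i k : ℕ}
    (h : ∀ t ∈ l, ¬ (i = t.2.1 ∧ k = t.2.2) ∧ ¬ (i = t.2.2 ∧ k = t.2.1)) : pol l i k = 0 := by
  induction l with
  | nil => simp
  | cons t l ih =>
    rw [pol_cons, ih fun s hs => h s (List.mem_cons_of_mem _ hs)]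
    have := h t List.mem_cons_self
    have e1 : (if i = t.2.1 then (1 : ℤ) else 0) * (if k = t.2.2 then 1 else 0) = 0 := by
      split_ifs <;> simp_all
    have e2 : (if i = t.2.2 then (1 : ℤ) else 0) * (if k = t.2.1 then 1 else 0) = 0 := by
      split_ifs <;> simp_all
    rw [e1, e2]
    simp

lemma pol_head {t : ℤ × ℕ × ℕ} {l : Form} {i k : ℕ} (hl : pol l i k = 0) :
    pol (t :: l) i k = t.1 * ((if i = t.2.1 then 1 else 0) * (if k = t.2.2 then 1 else 0) +
    (if i = t.2.2 then 1 else 0) * (if k = t.2.1 then 1 else 0)) := by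
  rw [pol_cons, hl, add_zero]

section

variable {E : List (ℕ × ℕ × ℕ × ℕ)} {K : ℕ}

lemma tl_mem (hE' : ∀ e ∈ E, Below K e) (hK : 0 < K) (n : ℕ) (j : Idx E.length)
    {t : ℤ × ℕ × ℕ} (ht : t ∈ tl E K n j) :
    t.2.1 < 9 + K + E.length ∧ t.2.2 < 9 + K + E.length ∧
    (t.2.1 = 0 → t.2.2 < 8 + K) ∧ (t.2.2 = 0 → t.2.1 < 8 + K) ∧ ¬ (t.2.1 = 7 ∧ t.2.2 = 7) ∧
      ¬ (t.2.1 = 3 ∧ t.2.2 = 3) ∧ ¬ (t.2.1 = 1 ∧ t.2.2 = 1) := by
  cases j with
  | par =>
    simp only [tl, List.mem_cons, List.not_mem_nil, or_false] at ht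
    rcases ht with rfl | rfl
    · simp; omega
    · simp
  | eqn j =>
    have := hE_mem (hE' _ (List.get_mem E j)) ht
    omega
  | ssum =>
    simp only [tl, List.mem_map, List.mem_range] at ht
    obtain ⟨i, hi, rfl⟩ := ht
    simp only
    omega
  | lag =>
    simp only [tl, List.mem_cons, List.mem_map, List.mem_range] at ht
    rcases ht with rfl | rfl | rfl | rfl | ⟨i, hi, rfl⟩ <;> simp only <;> omega
  | pell =>
    simp only [tl, List.mem_cons, List.not_mem_nil, or_false] at ht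
    rcases ht with rfl | rfl <;> simp only <;> omega

lemma pv_lt (j : Idx E.length) :
    (pv E.length K j).1 < 9 + K + E.length ∧ (pv E.length K j).2 < 9 + K + E.length := by
  cases j with
  | eqn j =>
    have := j.2
    simp only [pv]
    omega
  | _ => simp only [pv]; omega

lemma FF_bd (hE' : ∀ e ∈ E, Below K e) (hK : 0 < K) (n : ℕ) (j : Idx E.length) :
    Bd (9 + K + E.length) (FF E K n j) := by
  intro t ht
  rcases List.mem_cons.1 ht with rfl | ht
  · exact pv_lt j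
  · have := tl_mem hE' hK n j ht
    exact ⟨this.1, this.2.1⟩

lemma pv_ne {L : ℕ} (j j' : Idx L) (h : j ≠ j') :
    ¬ ((pv L K j).1 = (pv L K j').1 ∧ (pv L K j).2 = (pv L K j').2) ∧
      ¬ ((pv L K j).1 = (pv L K j').2 ∧ (pv L K j).2 = (pv L K j').1) := by
  rcases j with _ | j | _ | _ | _ <;> rcases j' with _ | j' | _ | _ | _ <;>
    simp only [pv] <;> first | omega | exact absurd rfl h | skip
  have : (j : ℕ) ≠ (j' : ℕ) := fun hj => h (by rw [Fin.ext hj])
  omega

lemma dual (hE' : ∀ e ∈ E, Below K e) (hK : 0 < K) (n : ℕ) (j j' : Idx E.length) :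
    kp E.length j * pol (FF E K n j') (pv E.length K j).1 (pv E.length K j).2 =
      if j = j' then 2 else 0 := by
  have key : ∀ j j' : Idx E.length, ∀ t ∈ tl E K n j',
      ¬ ((pv E.length K j).1 = t.2.1 ∧ (pv E.length K j).2 = t.2.2) ∧
        ¬ ((pv E.length K j).1 = t.2.2 ∧ (pv E.length K j).2 = t.2.1) := by
    intro j j' t ht
    have := tl_mem hE' hK n j' ht
    cases j <;> simp only [pv] <;> omega
  by_cases h : j = j'
  · subst h
    rw [if_pos rfl]
    unfold FF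
    rw [pol_cons, pol_zero (key j j)]
    cases j <;> simp [kp, cf, pv]
  · rw [if_neg h, pol_zero, mul_zero]
    intro t ht
    rcases List.mem_cons.1 ht with rfl | ht
    · exact pv_ne j j' h
    · exact key j j' t ht

end

/-! ### Values of the forms -/

lemma ev_sq (c : ℤ) (g : ℕ → ℕ) (a : ℕ → ℤ) (m : ℕ) :
    ev ((List.range m).map fun i => (c, g i, g i)) a = c * ∑ i ∈ range m, a (g i) ^ 2 := by
  induction m with
  | zero => simp
  | succ m ih =>
    rw [List.range_succ, List.map_append, ev_append, ih, Finset.sum_range_succ]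
    simp
    ring

lemma sq_sum_zero {a : ℕ → ℤ} {m : ℕ} (h : ∑ i ∈ range m, a i ^ 2 = 0) {i : ℕ} (hi : i < m) :
    a i = 0 := by
  have := (Finset.sum_eq_zero_iff_of_nonneg fun i _ => sq_nonneg (a i)).1 h i (mem_range.2 hi)
  exact pow_eq_zero_iff (two_ne_zero) |>.1 this

section

variable {E : List (ℕ × ℕ × ℕ × ℕ)} {K : ℕ}

lemma ev_par (n : ℕ) (a : ℕ → ℤ) :
    ev (FF E K n .par) a = - (a 0 * a (8 + K)) + (a 0 * a 8 - n * (a 0 * a 0)) := by
  simp [FF, tl, cf, pv]
  ring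

lemma ev_eqn (n : ℕ) (j : Fin E.length) (a : ℕ → ℤ) :
    ev (FF E K n (.eqn j)) a = - (a 0 * a (9 + K + j)) + ev (hE (E.get j)) a := by
  simp [FF, tl, cf, pv]

lemma ev_ssum (n : ℕ) (a : ℕ → ℤ) :
    ev (FF E K n .ssum) a = a 7 ^ 2 + ∑ j ∈ range (E.length + 1), a (8 + K + j) ^ 2 := by
  unfold FF tl
  rw [ev_cons, ev_sq 1 (fun j => 8 + K + j)]
  simp [cf, pv]
  ring

lemma ev_lag (n : ℕ) (a : ℕ → ℤ) :
    ev (FF E K n .lag) a = a 2 ^ 2 - a 3 ^ 2 - a 4 ^ 2 - a 5 ^ 2 - a 6 ^ 2 -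
      ∑ i ∈ range K, a (8 + i) ^ 2 := by
  unfold FF tl
  simp only [ev_cons]
  rw [ev_sq (-1) (fun j => 8 + j)]
  simp [cf, pv]
  ring

lemma ev_pell (n : ℕ) (a : ℕ → ℤ) :
    ev (FF E K n .pell) a = a 1 ^ 2 - 2 * a 2 ^ 2 - a 0 ^ 2 := by
  simp [FF, tl, cf, pv]
  ring

lemma two_sq {p q : ℤ} (h : p ^ 2 = 2 * q ^ 2) : p = 0 ∧ q = 0 := by
  have h1 : (⟨p, q⟩ : Zsqrtd 2).norm = 0 := by
    rw [Zsqrtd.norm_def]
    linarith
  have h2 := (Zsqrtd.norm_eq_zero (d := 2) (fun n hn => by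
    have h3 : n < 2 ∧ -2 < n := by constructor <;> nlinarith
    obtain ⟨h3, h4⟩ := h3
    interval_cases n <;> omega) _).1 h1
  rw [Zsqrtd.ext_iff] at h2
  exact h2

lemma inf_lemma (n : ℕ) (a : ℕ → ℤ) (h0 : a 0 = 0) (h : ∀ j, ev (FF E K n j) a = 0) :
    ∀ i < 9 + K + E.length, a i = 0 := by
  have h1 := h .pell
  have h2 := h .lag
  have h3 := h .ssum
  rw [ev_pell, h0] at h1
  rw [ev_lag] at h2
  rw [ev_ssum] at h3
  obtain ⟨a1, a2⟩ := two_sq (p := a 1) (q := a 2) (by linarith)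
  rw [a2] at h2
  have s1 : 0 ≤ ∑ i ∈ range K, a (8 + i) ^ 2 := Finset.sum_nonneg fun i _ => sq_nonneg _
  have s2 : 0 ≤ ∑ i ∈ range (E.length + 1), a (8 + K + i) ^ 2 :=
    Finset.sum_nonneg fun i _ => sq_nonneg _
  have a3 : a 3 = 0 := by nlinarith [sq_nonneg (a 3), sq_nonneg (a 4), sq_nonneg (a 5), sq_nonneg (a 6)]
  have a4 : a 4 = 0 := by nlinarith [sq_nonneg (a 3), sq_nonneg (a 4), sq_nonneg (a 5), sq_nonneg (a 6)]
  have a5 : a 5 = 0 := by nlinarith [sq_nonneg (a 3), sq_nonneg (a 4), sq_nonneg (a 5), sq_nonneg (a 6)]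
  have a6 : a 6 = 0 := by nlinarith [sq_nonneg (a 3), sq_nonneg (a 4), sq_nonneg (a 5), sq_nonneg (a 6)]
  have a7 : a 7 = 0 := by nlinarith [sq_nonneg (a 7)]
  rw [a3, a4, a5, a6] at h2
  rw [a7] at h3
  have t1 : ∑ i ∈ range K, a (8 + i) ^ 2 = 0 := by linarith
  have t2 : ∑ i ∈ range (E.length + 1), a (8 + K + i) ^ 2 = 0 := by linarith
  intro i hi
  by_cases c8 : i < 8
  · interval_cases i <;> assumption
  by_cases cK : i < 8 + K
  · obtain ⟨k, rfl⟩ := Nat.exists_eq_add_of_le (by omega : 8 ≤ i)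
    exact sq_sum_zero (a := fun i => a (8 + i)) t1 (by omega)
  · obtain ⟨k, rfl⟩ := Nat.exists_eq_add_of_le (by omega : 8 + K ≤ i)
    exact sq_sum_zero (a := fun i => a (8 + K + i)) t2 (by omega)

lemma pell_big (b : ℕ) : ∃ p q : ℤ, p ^ 2 - 2 * q ^ 2 = 1 ∧ 1 ≤ p ∧ (b : ℤ) ≤ q := by
  induction b with
  | zero => exact ⟨1, 0, by norm_num, by norm_num, by norm_num⟩
  | succ b ih =>
    obtain ⟨p, q, h1, h2, h3⟩ := ih
    refine ⟨3 * p + 4 * q, 2 * p + 3 * q, by linear_combination h1, ?_, ?_⟩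
    · have : (0 : ℤ) ≤ b := by positivity
      linarith
    · have : (0 : ℤ) ≤ b := by positivity
      push_cast
      linarith

/-- The forms have a common zero with first coordinate `1` iff the system is solvable. -/
theorem zero_iff (hE' : ∀ e ∈ E, Below K e) (hK : 0 < K) (n : ℕ) :
    (∃ a : ℕ → ℤ, a 0 = 1 ∧ ∀ j, ev (FF E K n j) a = 0) ↔
      ∃ x : ℕ → ℤ, x 0 = (n : ℤ) ∧ ∀ e ∈ E, Holds x e := by
  constructor
  · rintro ⟨a, h0, h⟩
    have h3 := h .ssum
    rw [ev_ssum] at h3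
    have s2 : 0 ≤ ∑ i ∈ range (E.length + 1), a (8 + K + i) ^ 2 :=
      Finset.sum_nonneg fun i _ => sq_nonneg _
    have t2 : ∑ i ∈ range (E.length + 1), a (8 + K + i) ^ 2 = 0 := by
      nlinarith [sq_nonneg (a 7)]
    have w : ∀ i < E.length + 1, a (8 + K + i) = 0 := fun i hi =>
      sq_sum_zero (a := fun i => a (8 + K + i)) t2 hi
    refine ⟨fun i => a (8 + i), ?_, ?_⟩
    · have := h .par
      have w0 := w 0 (by omega)
      rw [add_zero] at w0
      rw [ev_par, h0, w0] at this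
      show a 8 = n
      linarith
    · intro e he
      obtain ⟨j, hj, rfl⟩ := List.getElem_of_mem he
      have h1 := h (.eqn ⟨j, hj⟩)
      have wj := w (j + 1) (by omega)
      rw [show 8 + K + (j + 1) = 9 + K + j by omega] at wj
      rw [ev_eqn] at h1
      simp only at h1
      rw [wj, mul_zero, neg_zero, zero_add] at h1
      exact (ev_hE _ a h0).1 h1
  · rintro ⟨x, hx0, hx⟩
    obtain ⟨p, q, h1, h2, h3⟩ := pell_big (∑ i ∈ range K, x i ^ 2).toNat
    have s1 : 0 ≤ ∑ i ∈ range K, x i ^ 2 := Finset.sum_nonneg fun i _ => sq_nonneg _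
    rw [Int.toNat_of_nonneg s1] at h3
    have h4 : 0 ≤ q ^ 2 - ∑ i ∈ range K, x i ^ 2 := by nlinarith
    obtain ⟨s3, s4, s5, s6, hs⟩ := Nat.sum_four_squares (q ^ 2 - ∑ i ∈ range K, x i ^ 2).toNat
    have hs' : (s3 : ℤ) ^ 2 + s4 ^ 2 + s5 ^ 2 + s6 ^ 2 = q ^ 2 - ∑ i ∈ range K, x i ^ 2 := by
      have := congrArg (Nat.cast : ℕ → ℤ) hs
      rw [Int.toNat_of_nonneg h4] at this
      push_cast at this
      exact this
    let a : ℕ → ℤ := fun i => if i = 0 then 1 else if i = 1 then p else if i = 2 then q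
      else if i = 3 then s3 else if i = 4 then s4 else if i = 5 then s5 else if i = 6 then s6
      else if i = 7 then 0 else if i < 8 + K then x (i - 8) else 0
    have a8 : ∀ i < K, a (8 + i) = x i := by
      intro i hi
      have e1 : 8 + i < 8 + K := by omega
      have e2 : 8 + i - 8 = i := by omega
      have : a (8 + i) = if 8 + i < 8 + K then x (8 + i - 8) else 0 := by
        show (if 8 + i = 0 then _ else _) = _
        rw [if_neg (by omega), if_neg (by omega), if_neg (by omega), if_neg (by omega),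
          if_neg (by omega), if_neg (by omega), if_neg (by omega), if_neg (by omega)]
      rw [this, if_pos e1, e2]
    have aK : ∀ i, a (8 + K + i) = 0 := by
      intro i
      show (if 8 + K + i = 0 then _ else _) = _
      rw [if_neg (by omega), if_neg (by omega), if_neg (by omega), if_neg (by omega),
          if_neg (by omega), if_neg (by omega), if_neg (by omega), if_neg (by omega),
          if_neg (by omega)]
    refine ⟨a, rfl, fun j => ?_⟩
    cases j with
    | par =>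
      rw [ev_par]
      have e1 := a8 0 hK
      have e2 := aK 0
      rw [add_zero] at e1 e2
      rw [e1, e2, hx0]
      show - (1 * 0) + (1 * (n : ℤ) - n * (1 * 1)) = 0
      ring
    | eqn j =>
      rw [ev_eqn]
      have e2 := aK (j + 1)
      rw [show 8 + K + ((j : ℕ) + 1) = 9 + K + j by omega] at e2
      rw [e2, mul_zero, neg_zero, zero_add, ev_hE _ a rfl]
      refine (Holds.congr (hE' _ (List.get_mem E j)) a8).2 (hx _ (List.get_mem E j))
    | ssum =>
      rw [ev_ssum]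
      simp only [aK]
      show (0 : ℤ) ^ 2 + _ = 0
      simp
    | lag =>
      rw [ev_lag]
      have : ∑ i ∈ range K, a (8 + i) ^ 2 = ∑ i ∈ range K, x i ^ 2 :=
        Finset.sum_congr rfl fun i hi => by rw [a8 i (mem_range.1 hi)]
      rw [this]
      show q ^ 2 - (s3 : ℤ) ^ 2 - s4 ^ 2 - s5 ^ 2 - s6 ^ 2 - _ = 0
      linarith
    | pell =>
      rw [ev_pell]
      show p ^ 2 - 2 * q ^ 2 - 1 ^ 2 = 0
      linarith

/-- **Equivalence**: the ideal contains a nonzero polynomial with at most three terms iff the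
system with parameter `n` is solvable. -/
theorem trinomial_iff (hE' : ∀ e ∈ E, Below K e) (hK : 0 < K) (n : ℕ) :
    (∃ f ∈ Ideal.span {p | p ∈ gens (9 + K + E.length) (FF E K n) (pv E.length K) (kp E.length)},
      f ≠ 0 ∧ f.support.card ≤ 3) ↔ ∃ x : ℕ → ℤ, x 0 = (n : ℤ) ∧ ∀ e ∈ E, Holds x e := by
  rw [← zero_iff hE' hK n]
  constructor
  · rintro ⟨f, hf, hf0, hf3⟩
    exact neg_dir (by omega) (FF_bd hE' hK n) pv_lt (dual hE' hK n) (inf_lemma n) hf hf0 hf3
  · rintro ⟨a, h0, h⟩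
    exact pos_dir (by omega) (FF_bd hE' hK n) a h0 h

end

end Pool.Agent.MP_d3d6ea_lc
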