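import Pool.Agent.MP_d3d6ea_lc.Func

/-!
A short polynomial in the ideal gives an integral zero of the forms.
-/

set_option autoImplicit false

open MvPolynomial Finset

namespace Pool.Agent.MP_d3d6ea_lc

/-- Indicator of the exponents that agree with `w` outside the variables below `N`. -/
noncomputable def chi (N : ℕ) (w : ℕ →₀ ℕ) (u : ℕ →₀ ℕ) : ℚ :=
  open Classical in if ∀ i, N ≤ i → u i = w i then 1 else 0

lemma chi_add (N : ℕ) (w u : ℕ →₀ ℕ) {i : ℕ} (hi : i < N) :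
    chi N w (u + Finsupp.single i 1) = chi N w u := by
  unfold chi
  have : (∀ j, N ≤ j → (u + Finsupp.single i 1 : ℕ →₀ ℕ) j = w j) ↔ (∀ j, N ≤ j → u j = w j) := by
    refine forall_congr' fun j => ?_
    refine imp_congr_right fun hj => ?_
    have : i ≠ j := by omega
    rw [Finsupp.add_apply, Finsupp.single_apply, if_neg this, add_zero]
  by_cases h : ∀ j, N ≤ j → u j = w j
  · rw [if_pos h, if_pos (this.2 h)]
  · rw [if_neg h, if_neg fun h' => h (this.1 h')]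

lemma cast_add_single (u : ℕ →₀ ℕ) (i : ℕ) :
    (fun m => (((u + Finsupp.single i 1 : ℕ →₀ ℕ) m : ℕ) : ℚ)) =
      fun m => (u m : ℚ) + (if i = m then 1 else 0) := by
  funext m
  rw [Finsupp.add_apply, Finsupp.single_apply]
  push_cast
  rfl

/-- The condition on a functional which makes it vanish on the first ideal. -/
def Good (N : ℕ) (w : ℕ →₀ ℕ) (φ : (ℕ →₀ ℕ) → ℚ) (b : ℕ → ℕ → ℚ) : Prop :=
  ∀ i < N, ∀ k < N, ∀ u, del k (del i φ) u = b i k * chi N w u

lemma good_chi (N : ℕ) (w : ℕ →₀ ℕ) : Good N w (chi N w) (fun _ _ => 0) := by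
  intro i hi k hk u
  simp only [del, chi_add N w _ hi, chi_add N w _ hk]
  ring

lemma good_lin (N : ℕ) (w : ℕ →₀ ℕ) (m : ℕ) :
    Good N w (fun u => chi N w u * (u m : ℚ)) (fun _ _ => 0) := by
  intro i hi k hk u
  simp only [del, chi_add N w _ hi, chi_add N w _ hk, Finsupp.add_apply]
  push_cast
  ring

lemma good_form (N : ℕ) (w : ℕ →₀ ℕ) (l : Form) :
    Good N w (fun u => chi N w u * ev l (fun i => (u i : ℚ))) (fun i k => (pol l i k : ℚ)) := by
  intro i hi k hk u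
  simp only [del, chi_add N w _ hi, chi_add N w _ hk]
  rw [← ev_diff l (fun i => (u i : ℚ)) i k]
  have e1 := cast_add_single u i
  have e2 := cast_add_single u k
  have e3 : (fun m => (((u + Finsupp.single k 1 + Finsupp.single i 1 : ℕ →₀ ℕ) m : ℕ) : ℚ)) =
      fun m => (u m : ℚ) + (if i = m then 1 else 0) + (if k = m then 1 else 0) := by
    rw [cast_add_single (u + Finsupp.single k 1) i]
    funext m
    have := congrFun e2 m
    rw [this]
    ring
  rw [e1, e2, e3]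
  ring

lemma Lam_zz {N : ℕ} {w : ℕ →₀ ℕ} {φ : (ℕ →₀ ℕ) → ℚ} {b : ℕ → ℕ → ℚ} (hφ : Good N w φ b)
    {i k : ℕ} (hi : i < N) (hk : k < N) (h : MvPolynomial ℕ ℚ) :
    Lam φ (z i * z k * h) = b i k * Lam (chi N w) h := by
  rw [mul_assoc, Lam_z_mul, Lam_z_mul, Lam_ext (hφ i hi k hk), Lam_smul]

section

variable {ι : Type} [Fintype ι] (N : ℕ) (F : ι → Form) (piv : ι → ℕ × ℕ)
  (κ : ι → ℤ)

/-- The element replacing the second order class dual to the form `j`. -/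
noncomputable def om (j : ι) : MvPolynomial ℕ ℚ := C (κ j : ℚ) * (z (piv j).1 * z (piv j).2)

/-- The quadratic generators. -/
noncomputable def quad (i k : ℕ) : MvPolynomial ℕ ℚ :=
  2 * (z i * z k) - ∑ j, C (pol (F j) i k : ℚ) * om piv κ j

/-- The generators of the local ideal. -/
noncomputable def G1 : List (MvPolynomial ℕ ℚ) :=
  (((List.range N).product (List.range N)).product (List.range N)).map
      (fun t => z t.1.1 * z t.1.2 * z t.2) ++
    ((List.range N).product (List.range N)).map (fun t => quad F piv κ t.1 t.2)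

/-- The generators of the ideal of the point `(-2, 1, ..., 1)`. -/
noncomputable def H : List (MvPolynomial ℕ ℚ) :=
  (X 0 + 2) :: (List.range (N - 1)).map (fun i => z (i + 1))

/-- All generators. -/
noncomputable def gens : List (MvPolynomial ℕ ℚ) :=
  (G1 N F piv κ).flatMap fun g => (H N).map fun h => g * h

variable {N F piv κ}

lemma mem_G1 {p : MvPolynomial ℕ ℚ} : p ∈ G1 N F piv κ ↔
    (∃ i < N, ∃ k < N, ∃ m < N, p = z i * z k * z m) ∨
      (∃ i < N, ∃ k < N, p = quad F piv κ i k) := by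
  unfold G1
  rw [List.mem_append]
  refine or_congr ?_ ?_
  · simp only [List.mem_map, Prod.exists]
    constructor
    · rintro ⟨i, k, m, hm, rfl⟩
      have h := List.mem_product.1 hm
      have h2 := List.mem_product.1 h.1
      simp only [List.mem_range] at h h2
      exact ⟨i, h2.1, k, h2.2, m, h.2, rfl⟩
    · rintro ⟨i, hi, k, hk, m, hm, rfl⟩
      exact ⟨i, k, m, List.mem_product.2 ⟨List.mem_product.2 ⟨List.mem_range.2 hi,
        List.mem_range.2 hk⟩, List.mem_range.2 hm⟩, rfl⟩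
  · simp only [List.mem_map, Prod.exists]
    constructor
    · rintro ⟨i, k, hm, rfl⟩
      have h := List.mem_product.1 hm
      simp only [List.mem_range] at h
      exact ⟨i, h.1, k, h.2, rfl⟩
    · rintro ⟨i, hi, k, hk, rfl⟩
      exact ⟨i, k, List.mem_product.2 ⟨List.mem_range.2 hi, List.mem_range.2 hk⟩, rfl⟩

lemma mem_H {p : MvPolynomial ℕ ℚ} : p ∈ H N ↔ p = X 0 + 2 ∨ ∃ i, 0 < i ∧ i < N ∧ p = z i := by
  unfold H
  rw [List.mem_cons]
  refine or_congr Iff.rfl ?_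
  simp only [List.mem_map, List.mem_range]
  constructor
  · rintro ⟨i, hi, rfl⟩
    exact ⟨i + 1, by omega, by omega, rfl⟩
  · rintro ⟨i, hi0, hi, rfl⟩
    exact ⟨i - 1, by omega, by rw [Nat.sub_add_cancel hi0]⟩

lemma mem_gens {p : MvPolynomial ℕ ℚ} : p ∈ gens N F piv κ ↔
    ∃ g ∈ G1 N F piv κ, ∃ h ∈ H N, p = g * h := by
  unfold gens
  simp only [List.mem_flatMap, List.mem_map]
  constructor
  · rintro ⟨g, hg, h, hh, rfl⟩
    exact ⟨g, hg, h, hh, rfl⟩
  · rintro ⟨g, hg, h, hh, rfl⟩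
    exact ⟨g, hg, h, hh, rfl⟩

lemma G1_Ann {w : ℕ →₀ ℕ} {φ : (ℕ →₀ ℕ) → ℚ} {b : ℕ → ℕ → ℚ} (hφ : Good N w φ b)
    (hp : ∀ j, (piv j).1 < N ∧ (piv j).2 < N)
    (hb : ∀ i < N, ∀ k < N, 2 * b i k =
      ∑ j, (pol (F j) i k : ℚ) * ((κ j : ℚ) * b (piv j).1 (piv j).2))
    {g : MvPolynomial ℕ ℚ} (hg : g ∈ G1 N F piv κ) : g ∈ Ann φ := by
  intro h
  rcases mem_G1.1 hg with ⟨i, hi, k, hk, m, hm, rfl⟩ | ⟨i, hi, k, hk, rfl⟩
  · rw [mul_assoc (z i * z k), Lam_zz hφ hi hk, Lam_z_mul]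
    have : Lam (del m (chi N w)) = Lam (fun _ => 0) := Lam_ext fun u => by
      simp only [del, chi_add N w u hm, sub_self]
    rw [this]
    simp [Lam_apply]
  · have e1 : quad F piv κ i k * h = (2 : ℚ) • (z i * z k * h) -
        ∑ j, ((pol (F j) i k : ℚ) * (κ j : ℚ)) • (z (piv j).1 * z (piv j).2 * h) := by
      unfold quad om
      rw [sub_mul, Finset.sum_mul]
      congr 1
      · rw [smul_eq_C_mul, map_ofNat]
        ring
      · refine Finset.sum_congr rfl fun j _ => ?_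
        rw [smul_eq_C_mul, map_mul]
        ring
    rw [e1, map_sub, map_sum, map_smul, smul_eq_mul, Lam_zz hφ hi hk]
    have e2 : ∀ j, Lam φ (((pol (F j) i k : ℚ) * (κ j : ℚ)) • (z (piv j).1 * z (piv j).2 * h)) =
        ((pol (F j) i k : ℚ) * ((κ j : ℚ) * b (piv j).1 (piv j).2)) * Lam (chi N w) h := by
      intro j
      rw [map_smul, smul_eq_mul, Lam_zz hφ (hp j).1 (hp j).2]
      ring
    simp only [e2]
    rw [← Finset.sum_mul, ← hb i hi k hk]
    ring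

lemma gens_Ann {w : ℕ →₀ ℕ} {φ : (ℕ →₀ ℕ) → ℚ} {b : ℕ → ℕ → ℚ} (hφ : Good N w φ b)
    (hp : ∀ j, (piv j).1 < N ∧ (piv j).2 < N)
    (hb : ∀ i < N, ∀ k < N, 2 * b i k =
      ∑ j, (pol (F j) i k : ℚ) * ((κ j : ℚ) * b (piv j).1 (piv j).2))
    {f : MvPolynomial ℕ ℚ} (hf : f ∈ Ideal.span {p | p ∈ gens N F piv κ}) : Lam φ f = 0 := by
  apply Lam_eq_zero
  refine Ideal.span_le.2 ?_ hf
  intro p hp'
  obtain ⟨g, hg, h, hh, rfl⟩ := mem_gens.1 hp'
  exact Ideal.mul_mem_right _ _ (G1_Ann hφ hp hb hg)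

lemma gens_point (hN : 0 < N) (w : ℕ →₀ ℕ)
    {f : MvPolynomial ℕ ℚ} (hf : f ∈ Ideal.span {p | p ∈ gens N F piv κ}) :
    Lam (fun u => chi N w u * (-2) ^ (u 0)) f = 0 := by
  apply Lam_eq_zero
  refine Ideal.span_le.2 ?_ hf
  intro p hp'
  obtain ⟨g, hg, h, hh, rfl⟩ := mem_gens.1 hp'
  refine Ideal.mul_mem_left _ _ ?_
  intro q
  rcases mem_H.1 hh with rfl | ⟨i, hi0, hi, rfl⟩
  · rw [add_mul, map_add, Lam_X_mul]
    have e1 : (2 * q : MvPolynomial ℕ ℚ) = (2 : ℚ) • q := by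
      rw [smul_eq_C_mul, map_ofNat]
    have e2 : Lam (fun u => chi N w (u + Finsupp.single 0 1) *
        (-2) ^ ((u + Finsupp.single 0 1 : ℕ →₀ ℕ) 0)) =
        Lam (fun u => (-2) * (chi N w u * (-2) ^ (u 0))) := Lam_ext fun u => by
      rw [chi_add N w u hN]
      simp only [Finsupp.add_apply, Finsupp.single_eq_same, pow_succ]
      ring
    rw [e1, map_smul, e2, Lam_smul, smul_eq_mul]
    ring
  · rw [Lam_z_mul]
    have e2 : Lam (del i (fun u => chi N w u * (-2) ^ (u 0))) = Lam (fun _ => 0) :=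
      Lam_ext fun u => by
        have : i ≠ 0 := by omega
        simp only [del, chi_add N w u hi, Finsupp.add_apply, Finsupp.single_apply, if_neg this,
          add_zero, sub_self]
    rw [e2]
    simp [Lam_apply]

end

/-! ### Number theory -/

lemma ratio_mono (G : ℕ → ℤ) (a : ℕ) (h : ∀ n ≥ a, G n * (n + 1) < G (n + 1) * n)
    (ha : 0 < a) {m : ℕ} (hm : a ≤ m) : ∀ k > m, G m * k < G k * m := by
  intro k hk
  induction k, hk using Nat.le_induction with
  | base =>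
    have := h m hm
    push_cast
    exact this
  | succ k hk ih =>
    have h1 := h k (by omega)
    have hk0 : (0 : ℤ) < k := by exact_mod_cast (by omega : 0 < k)
    have hm0 : (0 : ℤ) < m := by exact_mod_cast (by omega : 0 < m)
    have h2 : (G m * k) * (k + 1) < (G k * m) * (k + 1) :=
      mul_lt_mul_of_pos_right ih (by omega)
    have h3 : (G k * (k + 1)) * m < (G (k + 1) * k) * m := mul_lt_mul_of_pos_right h1 hm0
    refine lt_of_mul_lt_mul_right ?_ hk0.le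
    push_cast
    calc G m * (k + 1) * k = (G m * k) * (k + 1) := by ring
      _ < (G k * m) * (k + 1) := h2
      _ = (G k * (k + 1)) * m := by ring
      _ < (G (k + 1) * k) * m := h3
      _ = G (k + 1) * m * k := by ring

lemma even_mono (n : ℕ) (hn : 1 ≤ n) :
    ((2 : ℤ) ^ n - 1) * (n + 1) < ((2 : ℤ) ^ (n + 1) - 1) * n := by
  have key : ∀ n : ℕ, ((2 : ℤ) ^ (n + 1)) * n + 1 > 0 := fun n => by positivity
  induction n, hn using Nat.le_induction with
  | base => norm_num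
  | succ n hn ih =>
    have h1 : (2 : ℤ) ^ (n + 1) = 2 * 2 ^ n := by rw [pow_succ]; ring
    have h2 : (2 : ℤ) ^ (n + 1 + 1) = 4 * 2 ^ n := by rw [pow_succ, pow_succ]; ring
    have h3 : (0 : ℤ) < 2 ^ n := by positivity
    have h4 : (1 : ℤ) ≤ n := by exact_mod_cast hn
    rw [h2, h1]
    rw [h1] at ih
    push_cast
    nlinarith

lemma odd_mono (n : ℕ) (hn : 2 ≤ n) :
    ((2 : ℤ) ^ n + 1) * (n + 1) < ((2 : ℤ) ^ (n + 1) + 1) * n := by
  induction n, hn using Nat.le_induction with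
  | base => norm_num
  | succ n hn ih =>
    have h1 : (2 : ℤ) ^ (n + 1) = 2 * 2 ^ n := by rw [pow_succ]; ring
    have h2 : (2 : ℤ) ^ (n + 1 + 1) = 4 * 2 ^ n := by rw [pow_succ, pow_succ]; ring
    have h3 : (0 : ℤ) < 2 ^ n := by positivity
    have h4 : (2 : ℤ) ≤ n := by exact_mod_cast hn
    rw [h2, h1]
    rw [h1] at ih
    push_cast
    nlinarith

lemma one_odd (k : ℕ) (hk : 4 ≤ k) : (3 : ℤ) * k < 2 ^ k + 1 := by
  induction k, hk using Nat.le_induction with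
  | base => norm_num
  | succ k hk ih =>
    rw [pow_succ]
    push_cast
    have : (4 : ℤ) ≤ k := by exact_mod_cast hk
    linarith

lemma nt {m k : ℕ} (hm : 0 < m) (hk : m < k)
    (h : (k : ℤ) * ((-2) ^ m - 1) = m * ((-2) ^ k - 1)) : m = 1 := by
  have hm0 : (0 : ℤ) < m := by exact_mod_cast hm
  have hk0 : (0 : ℤ) < k := by exact_mod_cast (hm.trans hk)
  have h2m : (1 : ℤ) < 2 ^ m := one_lt_pow₀ (by norm_num) (by omega)
  have h2k : (1 : ℤ) < 2 ^ k := one_lt_pow₀ (by norm_num) (by omega)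
  rcases Nat.even_or_odd m with em | om <;> rcases Nat.even_or_odd k with ek | ok
  · rw [em.neg_pow, ek.neg_pow] at h
    have := ratio_mono (fun n => 2 ^ n - 1) 1 (fun n hn => even_mono n hn) (by omega) hm k hk
    linarith
  · rw [em.neg_pow, ok.neg_pow] at h
    have h1 : (0 : ℤ) < k * (2 ^ m - 1) := mul_pos hk0 (by linarith)
    have h2 : (0 : ℤ) < m * (2 ^ k + 1) := mul_pos hm0 (by linarith)
    linarith
  · rw [om.neg_pow, ek.neg_pow] at h
    have h1 : (0 : ℤ) < k * (2 ^ m + 1) := mul_pos hk0 (by linarith)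
    have h2 : (0 : ℤ) < m * (2 ^ k - 1) := mul_pos hm0 (by linarith)
    linarith
  · rw [om.neg_pow, ok.neg_pow] at h
    by_contra hm1
    have := ratio_mono (fun n => 2 ^ n + 1) 2 (fun n hn => odd_mono n hn) (by omega)
      (by omega : 2 ≤ m) k hk
    linarith

section

variable {ι : Type} {N : ℕ} {F : ι → Form}

lemma pair_diff (hF : ∀ j, Bd N (F j)) {c1 c2 c3 : ℚ} (h1 : c1 ≠ 0) (h2 : c2 ≠ 0)
    {u1 u2 u3 : ℕ → ℕ} (e0 : c1 + c2 + c3 = 0)
    (e1 : ∀ i < N, c1 * u1 i + c2 * u2 i + c3 * u3 i = 0)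
    (e2 : ∀ j, c1 * ev (F j) (fun i => (u1 i : ℚ)) + c2 * ev (F j) (fun i => (u2 i : ℚ)) +
      c3 * ev (F j) (fun i => (u3 i : ℚ)) = 0) (j : ι) :
    ev (F j) (fun i => (u2 i : ℤ) - u1 i) = 0 := by
  have h := ev_three (F j) (hF j) c1 c2 c3 (fun i => (u1 i : ℚ)) (fun i => (u2 i : ℚ))
    (fun i => (u3 i : ℚ)) e0 e1
  rw [e2 j, mul_zero] at h
  have h3 : ev (F j) (fun i => (u2 i : ℚ) - (u1 i : ℚ)) = 0 := by
    have : -(c1 * c2) ≠ 0 := neg_ne_zero.2 (mul_ne_zero h1 h2)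
    exact (mul_eq_zero.1 h.symm).resolve_left this
  have h4 := ev_cast (R := ℚ) (F j) (fun i => (u2 i : ℤ) - u1 i)
  push_cast at h4
  rw [h3] at h4
  exact_mod_cast h4

lemma core (hN : 0 < N) (hF : ∀ j, Bd N (F j)) {c1 c2 c3 : ℚ} (h1 : c1 ≠ 0) (h2 : c2 ≠ 0)
    (h3 : c3 ≠ 0) {u1 u2 u3 : ℕ → ℕ} (e0 : c1 + c2 + c3 = 0)
    (e1 : ∀ i < N, c1 * u1 i + c2 * u2 i + c3 * u3 i = 0)
    (e2 : ∀ j, c1 * ev (F j) (fun i => (u1 i : ℚ)) + c2 * ev (F j) (fun i => (u2 i : ℚ)) +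
      c3 * ev (F j) (fun i => (u3 i : ℚ)) = 0)
    (e3 : c1 * (-2) ^ (u1 0) + c2 * (-2) ^ (u2 0) + c3 * (-2) ^ (u3 0) = 0)
    (l1 : u1 0 < u2 0) (l2 : u2 0 < u3 0) :
    ∃ a : ℕ → ℤ, a 0 = 1 ∧ ∀ j, ev (F j) a = 0 := by
  refine ⟨fun i => (u2 i : ℤ) - u1 i, ?_, fun j => pair_diff hF h1 h2 e0 e1 e2 j⟩
  obtain ⟨m, hm⟩ := Nat.exists_eq_add_of_lt l1
  obtain ⟨k, hk⟩ := Nat.exists_eq_add_of_lt l2
  have e4 := e1 0 hN
  have hm' : u2 0 = u1 0 + (m + 1) := by omega
  have hk' : u3 0 = u1 0 + (m + 1 + (k + 1)) := by omega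
  rw [hm', hk'] at e3 e4
  have e5 : c1 + c2 * (-2) ^ (m + 1) + c3 * (-2) ^ (m + 1 + (k + 1)) = 0 := by
    have : (-2 : ℚ) ^ (u1 0) * (c1 + c2 * (-2) ^ (m + 1) + c3 * (-2) ^ (m + 1 + (k + 1))) = 0 := by
      rw [← e3, pow_add _ (u1 0), pow_add _ (u1 0)]
      ring
    exact (mul_eq_zero.1 this).resolve_left (pow_ne_zero _ (by norm_num))
  push_cast at e4
  have e6 : c2 * (m + 1 : ℚ) = - c3 * (m + 1 + (k + 1) : ℚ) := by
    linear_combination e4 - (u1 0 : ℚ) * e0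
  have e7 : c2 * ((-2) ^ (m + 1) - 1) = - c3 * ((-2) ^ (m + 1 + (k + 1)) - 1) := by
    linear_combination e5 - e0
  have e8 : ((m + 1 + (k + 1) : ℕ) : ℚ) * ((-2) ^ (m + 1) - 1) =
      ((m + 1 : ℕ) : ℚ) * ((-2) ^ (m + 1 + (k + 1)) - 1) := by
    have h23 : c2 * c3 ≠ 0 := mul_ne_zero h2 h3
    have : c2 * c3 * (((m + 1 + (k + 1) : ℕ) : ℚ) * ((-2) ^ (m + 1) - 1)) =
      c2 * c3 * (((m + 1 : ℕ) : ℚ) * ((-2) ^ (m + 1 + (k + 1)) - 1)) := by
      push_cast
      linear_combination (c3 * (m + 1 + (k + 1) : ℚ)) * e7 -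
        (c3 * ((-2) ^ (m + 1 + (k + 1)) - 1)) * e6
    exact mul_left_cancel₀ h23 this
  have e9 : (((m + 1 + (k + 1) : ℕ) : ℤ) * ((-2) ^ (m + 1) - 1)) =
      ((m + 1 : ℕ) : ℤ) * ((-2) ^ (m + 1 + (k + 1)) - 1) := by
    exact_mod_cast e8
  have := nt (by omega) (by omega) e9
  simp only [hm']
  push_cast
  have hm0 : m = 0 := by omega
  subst hm0
  simp

lemma core_sym (hN : 0 < N) (hF : ∀ j, Bd N (F j))
    (hinf : ∀ a : ℕ → ℤ, a 0 = 0 → (∀ j, ev (F j) a = 0) → ∀ i < N, a i = 0)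
    {c1 c2 c3 : ℚ} (h1 : c1 ≠ 0) (h2 : c2 ≠ 0)
    (h3 : c3 ≠ 0) {u1 u2 u3 : ℕ → ℕ} (e0 : c1 + c2 + c3 = 0)
    (e1 : ∀ i < N, c1 * u1 i + c2 * u2 i + c3 * u3 i = 0)
    (e2 : ∀ j, c1 * ev (F j) (fun i => (u1 i : ℚ)) + c2 * ev (F j) (fun i => (u2 i : ℚ)) +
      c3 * ev (F j) (fun i => (u3 i : ℚ)) = 0)
    (e3 : c1 * (-2) ^ (u1 0) + c2 * (-2) ^ (u2 0) + c3 * (-2) ^ (u3 0) = 0)
    (n12 : ∃ i < N, u1 i ≠ u2 i) (n13 : ∃ i < N, u1 i ≠ u3 i) (n23 : ∃ i < N, u2 i ≠ u3 i) :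
    ∃ a : ℕ → ℤ, a 0 = 1 ∧ ∀ j, ev (F j) a = 0 := by
  have aux : ∀ v w : ℕ → ℕ, (∃ i < N, v i ≠ w i) →
      (∀ j, ev (F j) (fun i => (w i : ℤ) - v i) = 0) → v 0 ≠ w 0 := by
    rintro v w ⟨i, hi, hne⟩ h h0
    apply hne
    have := hinf (fun i => (w i : ℤ) - v i) (by simp [h0]) h i hi
    omega
  have d12 := aux u1 u2 n12 fun j => pair_diff hF h1 h2 e0 e1 e2 j
  have d13 := aux u1 u3 n13 fun j => pair_diff (c1 := c1) (c2 := c3) (c3 := c2) (u3 := u2)
    hF h1 h3 (by linarith) (fun i hi => by linarith [e1 i hi]) (fun j => by linarith [e2 j]) j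
  have d23 := aux u2 u3 n23 fun j => pair_diff (c1 := c2) (c2 := c3) (c3 := c1) (u3 := u1)
    hF h2 h3 (by linarith) (fun i hi => by linarith [e1 i hi]) (fun j => by linarith [e2 j]) j
  rcases lt_or_gt_of_ne d12 with a12 | a12 <;> rcases lt_or_gt_of_ne d13 with a13 | a13 <;>
    rcases lt_or_gt_of_ne d23 with a23 | a23
  · exact core (u1 := u1) (u2 := u2) (u3 := u3) hN hF h1 h2 h3 e0 e1 e2 e3 a12 a23
  · exact core (u1 := u1) (u2 := u3) (u3 := u2) hN hF h1 h3 h2 (by linarith)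
      (fun i hi => by linarith [e1 i hi]) (fun j => by linarith [e2 j]) (by linarith) a13 a23
  · omega
  · exact core (u1 := u3) (u2 := u1) (u3 := u2) hN hF h3 h1 h2 (by linarith)
      (fun i hi => by linarith [e1 i hi]) (fun j => by linarith [e2 j]) (by linarith) a13 a12
  · exact core (u1 := u2) (u2 := u1) (u3 := u3) hN hF h2 h1 h3 (by linarith)
      (fun i hi => by linarith [e1 i hi]) (fun j => by linarith [e2 j]) (by linarith) a12 a13
  · omega
  · exact core (u1 := u2) (u2 := u3) (u3 := u1) hN hF h2 h3 h1 (by linarith)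
      (fun i hi => by linarith [e1 i hi]) (fun j => by linarith [e2 j]) (by linarith) a23 a13
  · exact core (u1 := u3) (u2 := u2) (u3 := u1) hN hF h3 h2 h1 (by linarith)
      (fun i hi => by linarith [e1 i hi]) (fun j => by linarith [e2 j]) (by linarith) a23 a12

end

/-- **Negative direction**: a nonzero polynomial with at most three terms in the ideal gives an
integral zero of all forms with first coordinate `1`. -/
theorem neg_dir {ι : Type} [Fintype ι] [DecidableEq ι] {N : ℕ} {F : ι → Form}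
    {piv : ι → ℕ × ℕ} {κ : ι → ℤ} (hN : 0 < N) (hF : ∀ j, Bd N (F j))
    (hp : ∀ j, (piv j).1 < N ∧ (piv j).2 < N)
    (hdual : ∀ j j', κ j * pol (F j') (piv j).1 (piv j).2 = if j = j' then 2 else 0)
    (hinf : ∀ a : ℕ → ℤ, a 0 = 0 → (∀ j, ev (F j) a = 0) → ∀ i < N, a i = 0)
    {f : MvPolynomial ℕ ℚ} (hf : f ∈ Ideal.span {p | p ∈ gens N F piv κ}) (hf0 : f ≠ 0)
    (hf3 : f.support.card ≤ 3) : ∃ a : ℕ → ℤ, a 0 = 1 ∧ ∀ j, ev (F j) a = 0 := by
  classical
  obtain ⟨w, hw⟩ : f.support.Nonempty := Finset.nonempty_of_ne_empty fun h =>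
    hf0 (MvPolynomial.support_eq_empty.1 h)
  set S := f.support.filter fun u => ∀ i, N ≤ i → u i = w i with hS
  have hwS : w ∈ S := by
    rw [hS, Finset.mem_filter]
    exact ⟨hw, fun i _ => rfl⟩
  have hSum : ∀ g : (ℕ →₀ ℕ) → ℚ, Lam (fun u => chi N w u * g u) f = ∑ u ∈ S, coeff u f * g u := by
    intro g
    rw [Lam_apply, hS, Finset.sum_filter]
    refine Finset.sum_congr rfl fun u _ => ?_
    unfold chi
    split_ifs <;> simp
  have s0 : ∑ u ∈ S, coeff u f = 0 := by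
    have h1 := gens_Ann (good_chi N w) hp (fun i _ k _ => by simp) hf
    have h2 := hSum fun _ => 1
    simp only [mul_one] at h2
    rw [← h2]
    exact h1
  have s1 : ∀ m < N, ∑ u ∈ S, coeff u f * (u m : ℚ) = 0 := by
    intro m _
    rw [← hSum]
    exact gens_Ann (good_lin N w m) hp (fun i _ k _ => by simp) hf
  have s2 : ∀ j, ∑ u ∈ S, coeff u f * ev (F j) (fun i => (u i : ℚ)) = 0 := by
    intro j
    rw [← hSum]
    refine gens_Ann (good_form N w (F j)) hp (fun i _ k _ => ?_) hf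
    have h1 : ∀ j', (κ j' : ℚ) * (pol (F j) (piv j').1 (piv j').2 : ℚ) =
        if j' = j then 2 else 0 := by
      intro j'
      have := hdual j' j
      split_ifs at this ⊢
      · exact_mod_cast this
      · exact_mod_cast this
    simp only [h1]
    simp [mul_comm]
  have s3 : ∑ u ∈ S, coeff u f * (-2) ^ (u 0) = 0 := by
    rw [← hSum]
    exact gens_point hN w hf
  have hsub : ∀ u ∈ S, coeff u f ≠ 0 := fun u hu =>
    MvPolynomial.mem_support_iff.1 (Finset.mem_filter.1 hu).1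
  have hne : ∀ u ∈ S, ∀ v ∈ S, u ≠ v → ∃ i < N, u i ≠ v i := by
    intro u hu v hv huv
    by_contra hcon
    push Not at hcon
    apply huv
    ext i
    by_cases hi : i < N
    · exact hcon i hi
    · rw [(Finset.mem_filter.1 hu).2 i (by omega), (Finset.mem_filter.1 hv).2 i (by omega)]
  have hcard : S.card ≤ 3 := (Finset.card_filter_le _ _).trans hf3
  have hpos : 0 < S.card := Finset.card_pos.2 ⟨w, hwS⟩
  have : S.card = 1 ∨ S.card = 2 ∨ S.card = 3 := by omega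
  rcases this with h | h | h
  · obtain ⟨u, hu⟩ := Finset.card_eq_one.1 h
    rw [hu, Finset.sum_singleton] at s0
    exact absurd s0 (hsub u (by rw [hu]; simp))
  · obtain ⟨u, v, huv, hu⟩ := Finset.card_eq_two.1 h
    exfalso
    obtain ⟨i, hi, hne'⟩ := hne u (by rw [hu]; simp) v (by rw [hu]; simp) huv
    have hc := hsub u (by rw [hu]; simp)
    have s1' := s1 i hi
    rw [hu, Finset.sum_pair huv] at s0 s1'
    apply hne'
    have h5 : coeff u f * ((u i : ℚ) - (v i : ℚ)) = 0 := by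
      linear_combination s1' - (v i : ℚ) * s0
    have h6 : (u i : ℚ) - (v i : ℚ) = 0 := (mul_eq_zero.1 h5).resolve_left hc
    have h7 : (u i : ℚ) = (v i : ℚ) := by linarith
    exact_mod_cast h7
  · obtain ⟨u, v, x, huv, hux, hvx, hu⟩ := Finset.card_eq_three.1 h
    have hS3 : ∀ g : (ℕ →₀ ℕ) → ℚ, ∑ t ∈ S, g t = g u + g v + g x := by
      intro g
      rw [hu, Finset.sum_insert (by simp [huv, hux]), Finset.sum_pair hvx]
      ring
    have mu : u ∈ S := by rw [hu]; simp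
    have mv : v ∈ S := by rw [hu]; simp
    have mx : x ∈ S := by rw [hu]; simp
    refine core_sym (c1 := coeff u f) (c2 := coeff v f) (c3 := coeff x f) (u1 := u) (u2 := v)
      (u3 := x) hN hF hinf (hsub u mu) (hsub v mv) (hsub x mx) ?_ ?_ ?_ ?_
      (hne u mu v mv huv) (hne u mu x mx hux) (hne v mv x mx hvx)
    · rw [← hS3 fun t => coeff t f]
      exact s0
    · intro i hi
      rw [← hS3 fun t => coeff t f * (t i : ℚ)]
      exact s1 i hi
    · intro j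
      rw [← hS3 fun t => coeff t f * ev (F j) (fun i => (t i : ℚ))]
      exact s2 j
    · rw [← hS3 fun t => coeff t f * (-2) ^ (t 0)]
      exact s3

end Pool.Agent.MP_d3d6ea_lc
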