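import Pool.Agent.MP_d3d6ea_lc.Neg

/-!
An integral zero of the forms gives a trinomial in the ideal.
-/

set_option autoImplicit false

open MvPolynomial Finset

namespace Pool.Agent.MP_d3d6ea_lc

section

variable {A : Type} [CommRing A] {Z : ℕ → A} {N : ℕ}

lemma lin_zz (hc : ∀ i < N, ∀ k < N, ∀ m < N, Z i * Z k * Z m = 0) (c : ℕ → A) {n : ℕ}
    (hn : n ≤ N) {k m : ℕ} (hk : k < N) (hm : m < N) :
    (∑ i ∈ range n, c i * Z i) * Z k * Z m = 0 := by
  rw [Finset.sum_mul, Finset.sum_mul]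
  refine Finset.sum_eq_zero fun i hi => ?_
  have := hc i ((mem_range.1 hi).trans_le hn) k hk m hm
  calc c i * Z i * Z k * Z m = c i * (Z i * Z k * Z m) := by ring
    _ = 0 := by rw [this, mul_zero]

lemma lin_lin_z (hc : ∀ i < N, ∀ k < N, ∀ m < N, Z i * Z k * Z m = 0) (c d : ℕ → A) {n : ℕ}
    (hn : n ≤ N) {m : ℕ} (hm : m < N) :
    (∑ i ∈ range n, c i * Z i) * (∑ i ∈ range n, d i * Z i) * Z m = 0 := by
  rw [Finset.mul_sum, Finset.sum_mul]
  refine Finset.sum_eq_zero fun i hi => ?_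
  have := lin_zz hc c hn ((mem_range.1 hi).trans_le hn) hm
  calc (∑ i ∈ range n, c i * Z i) * (d i * Z i) * Z m =
      d i * ((∑ i ∈ range n, c i * Z i) * Z i * Z m) := by ring
    _ = 0 := by rw [this, mul_zero]

lemma sq_z (hc : ∀ i < N, ∀ k < N, ∀ m < N, Z i * Z k * Z m = 0) (c : ℕ → A) {n : ℕ}
    (hn : n ≤ N) {m : ℕ} (hm : m < N) :
    (∑ i ∈ range n, c i * (Z i) ^ 2) * Z m = 0 := by
  rw [Finset.sum_mul]
  refine Finset.sum_eq_zero fun i hi => ?_
  have hi' := (mem_range.1 hi).trans_le hn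
  have := hc i hi' i hi' m hm
  calc c i * Z i ^ 2 * Z m = c i * (Z i * Z i * Z m) := by ring
    _ = 0 := by rw [this, mul_zero]

lemma expand_step (l l' z P : A) (h1 : l * l * z = 0) (h1' : l * z * z = 0) (h2 : l' * z = 0)
    (h3 : z * z * z = 0) (hP : 2 * P = 2 + 2 * l + l ^ 2 - l') (e : ℕ) :
    2 * (P * (1 + z) ^ e) = 2 + 2 * (l + e * z) + (l + e * z) ^ 2 - (l' + e * z ^ 2) := by
  induction e with
  | zero => simp [hP]
  | succ e ih =>
    have : 2 * (P * (1 + z) ^ (e + 1)) = (2 * (P * (1 + z) ^ e)) * (1 + z) := by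
      rw [pow_succ]; ring
    rw [this, ih]
    push_cast
    linear_combination h1 + (2 * (e : A)) * h1' - h2 + ((e : A) ^ 2 - (e : A)) * h3

lemma expand (hc : ∀ i < N, ∀ k < N, ∀ m < N, Z i * Z k * Z m = 0) (m : ℕ → ℕ) :
    ∀ n ≤ N, 2 * ∏ i ∈ range n, (1 + Z i) ^ (m i) =
      2 + 2 * (∑ i ∈ range n, (m i : A) * Z i) + (∑ i ∈ range n, (m i : A) * Z i) ^ 2 -
        ∑ i ∈ range n, (m i : A) * (Z i) ^ 2 := by
  intro n
  induction n with
  | zero => intro _; simp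
  | succ n ih =>
    intro hn
    have hn' : n < N := by omega
    rw [Finset.prod_range_succ, Finset.sum_range_succ, Finset.sum_range_succ]
    exact expand_step _ _ _ _ (lin_lin_z hc _ _ hn'.le hn') (lin_zz hc _ hn'.le hn' hn')
      (sq_z hc _ hn'.le hn') (hc n hn' n hn' n hn') (ih hn'.le) _

lemma sq_zero {ι : Type} [Fintype ι] {F : ι → Form} (hF : ∀ j, Bd N (F j)) (Om : ι → A)
    (hq : ∀ i < N, ∀ k < N, 2 * (Z i * Z k) = ∑ j, (pol (F j) i k : A) * Om j)
    (a : ℕ → ℤ) (ha : ∀ j, ev (F j) a = 0) :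
    2 * (∑ i ∈ range N, (a i : A) * Z i) ^ 2 = 0 := by
  have h1 : 2 * (∑ i ∈ range N, (a i : A) * Z i) ^ 2 =
      ∑ j, (∑ i ∈ range N, ∑ k ∈ range N, (pol (F j) i k : A) * ((a i : A) * (a k : A))) *
        Om j := by
    rw [sq, Finset.sum_mul_sum, Finset.mul_sum]
    simp only [Finset.mul_sum, Finset.sum_mul]
    rw [Finset.sum_comm (s := (Finset.univ : Finset ι))]
    refine Finset.sum_congr rfl fun x hx => ?_
    rw [Finset.sum_comm (s := (Finset.univ : Finset ι))]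
    refine Finset.sum_congr rfl fun i hi => ?_
    have := hq x (mem_range.1 hx) i (mem_range.1 hi)
    calc 2 * ((a x : A) * Z x * ((a i : A) * Z i)) = ((a x : A) * (a i : A)) *
        (2 * (Z x * Z i)) := by ring
      _ = _ := by
        rw [this, Finset.mul_sum]
        exact Finset.sum_congr rfl fun j _ => by ring
  rw [h1]
  refine Finset.sum_eq_zero fun j _ => ?_
  rw [sum_pol (F j) (hF j) (fun i => (a i : A)), ← ev_cast, ha j]
  simp

end

/-- The monomial with exponents `m i`, `i < N`. -/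
noncomputable def M (N : ℕ) (m : ℕ → ℕ) : MvPolynomial ℕ ℚ := ∏ i ∈ range N, X i ^ m i

lemma M_mon (N : ℕ) (m : ℕ → ℕ) : ∃ u, M N m = monomial u 1 := by
  induction N with
  | zero => exact ⟨0, by simp [M]⟩
  | succ n ih =>
    obtain ⟨u, hu⟩ := ih
    refine ⟨u + Finsupp.single n (m n), ?_⟩
    unfold M at hu ⊢
    rw [Finset.prod_range_succ, hu, X_pow_eq_monomial, monomial_mul, mul_one]

section

variable {ι : Type} [Fintype ι] {N : ℕ} {F : ι → Form} {piv : ι → ℕ × ℕ} {κ : ι → ℤ}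

/-- The local ideal. -/
noncomputable def I1 (N : ℕ) (F : ι → Form) (piv : ι → ℕ × ℕ) (κ : ι → ℤ) :
    Ideal (MvPolynomial ℕ ℚ) := Ideal.span {p | p ∈ G1 N F piv κ}

/-- The ideal of the point `(-2, 1, ..., 1)`. -/
noncomputable def J (N : ℕ) : Ideal (MvPolynomial ℕ ℚ) := Ideal.span {p | p ∈ H N}

/-- The trinomial. -/
noncomputable def tri (N : ℕ) (m1 m2 m3 : ℕ → ℕ) : MvPolynomial ℕ ℚ :=
  4 * M N m1 - 6 * M N m2 + 2 * M N m3

lemma tri_mem_I1 (hF : ∀ j, Bd N (F j)) (a : ℕ → ℤ) (ha : ∀ j, ev (F j) a = 0)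
    (m1 m2 m3 : ℕ → ℕ) (h2 : ∀ i, (m2 i : ℤ) = m1 i + a i) (h3 : ∀ i, (m3 i : ℤ) = m1 i + 3 * a i) :
    tri N m1 m2 m3 ∈ I1 N F piv κ := by
  set A := MvPolynomial ℕ ℚ ⧸ I1 N F piv κ with hA
  let π : MvPolynomial ℕ ℚ →+* A := Ideal.Quotient.mk (I1 N F piv κ)
  have hπ : ∀ p ∈ G1 N F piv κ, π p = 0 := fun p hp =>
    Ideal.Quotient.eq_zero_iff_mem.2 (Ideal.subset_span hp)
  have hc : ∀ i < N, ∀ k < N, ∀ m < N, π (z i) * π (z k) * π (z m) = 0 := by
    intro i hi k hk m hm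
    rw [← map_mul, ← map_mul]
    exact hπ _ (mem_G1.2 (Or.inl ⟨i, hi, k, hk, m, hm, rfl⟩))
  have hq : ∀ i < N, ∀ k < N, 2 * (π (z i) * π (z k)) =
      ∑ j, (pol (F j) i k : A) * π (om piv κ j) := by
    intro i hi k hk
    have := hπ _ (mem_G1.2 (Or.inr ⟨i, hi, k, hk, rfl⟩))
    unfold quad at this
    rw [map_sub, map_sum, sub_eq_zero, map_mul, map_mul, map_ofNat] at this
    rw [this]
    refine Finset.sum_congr rfl fun j _ => ?_
    rw [map_mul]
    have h : (C (pol (F j) i k : ℚ) : MvPolynomial ℕ ℚ) = ((pol (F j) i k : ℤ) :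
      MvPolynomial ℕ ℚ) := by simp
    rw [h, map_intCast]
  have hX : ∀ i, π (X i) = 1 + π (z i) := by
    intro i
    rw [z, map_sub, map_one]
    ring
  have hM : ∀ m : ℕ → ℕ, π (M N m) = ∏ i ∈ range N, (1 + π (z i)) ^ m i := by
    intro m
    simp only [M, map_prod, map_pow, hX]
  have e1 := expand hc m1 N le_rfl
  have e2 := expand hc m2 N le_rfl
  have e3 := expand hc m3 N le_rfl
  rw [← hM] at e1 e2 e3
  have c2 : ∀ i, (m2 i : A) = m1 i + a i := by
    intro i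
    have := congrArg (Int.cast : ℤ → A) (h2 i)
    push_cast at this
    exact this
  have c3 : ∀ i, (m3 i : A) = m1 i + 3 * a i := by
    intro i
    have := congrArg (Int.cast : ℤ → A) (h3 i)
    rw [Int.cast_natCast, Int.cast_add, Int.cast_natCast, Int.cast_mul, Int.cast_ofNat] at this
    exact this
  simp only [c2, add_mul, Finset.sum_add_distrib] at e2
  simp only [c3, add_mul, Finset.sum_add_distrib, mul_assoc, ← Finset.mul_sum] at e3
  have e4 := sq_zero hF _ hq a ha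
  have e5 : π (tri N m1 m2 m3) = 0 := by
    rw [tri, map_add, map_sub, map_mul, map_mul, map_mul, map_ofNat, map_ofNat, map_ofNat]
    linear_combination 2 * e1 - 3 * e2 + e3 + 3 * e4
  exact Ideal.Quotient.eq_zero_iff_mem.1 e5

lemma tri_mem_J (hN : 0 < N) (m1 m2 m3 : ℕ → ℕ) (h1 : m1 0 = 3) (h2 : m2 0 = 4) (h3 : m3 0 = 6) :
    tri N m1 m2 m3 ∈ J N := by
  let π : MvPolynomial ℕ ℚ →+* (MvPolynomial ℕ ℚ ⧸ J N) := Ideal.Quotient.mk (J N)
  have hπ : ∀ p ∈ H N, π p = 0 := fun p hp =>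
    Ideal.Quotient.eq_zero_iff_mem.2 (Ideal.subset_span hp)
  have h0 : π (X 0) = -2 := by
    have := hπ _ (mem_H.2 (Or.inl rfl))
    rw [map_add, map_ofNat] at this
    linear_combination this
  have hi : ∀ i, 0 < i → i < N → π (X i) = 1 := by
    intro i hi0 hi
    have := hπ _ (mem_H.2 (Or.inr ⟨i, hi0, hi, rfl⟩))
    rw [z, map_sub, map_one] at this
    linear_combination this
  have hM : ∀ m : ℕ → ℕ, π (M N m) = (-2) ^ m 0 := by
    intro m
    rw [M, map_prod, Finset.prod_eq_single 0]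
    · rw [map_pow, h0]
    · intro i hi1 hi0
      rw [map_pow, hi i (by omega) (mem_range.1 hi1), one_pow]
    · intro h
      exact absurd (mem_range.2 hN) h
  have e5 : π (tri N m1 m2 m3) = 0 := by
    rw [tri, map_add, map_sub, map_mul, map_mul, map_mul, map_ofNat, map_ofNat, map_ofNat,
      hM, hM, hM, h1, h2, h3]
    ring
  exact Ideal.Quotient.eq_zero_iff_mem.1 e5

lemma mul_H_mem {f h : MvPolynomial ℕ ℚ} (hf : f ∈ I1 N F piv κ) (hh : h ∈ H N) :
    f * h ∈ Ideal.span {p | p ∈ gens N F piv κ} := by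
  refine Submodule.span_induction (p := fun f _ => f * h ∈ Ideal.span {p | p ∈ gens N F piv κ})
    ?_ ?_ ?_ ?_ hf
  · intro g hg
    exact Ideal.subset_span (mem_gens.2 ⟨g, hg, h, hh, rfl⟩)
  · rw [zero_mul]
    exact Ideal.zero_mem _
  · intro x y _ _ hx hy
    rw [add_mul]
    exact Ideal.add_mem _ hx hy
  · intro r x _ hx
    rw [smul_eq_mul, mul_assoc]
    exact Ideal.mul_mem_left _ _ hx

lemma G1_mul_mem {f g : MvPolynomial ℕ ℚ} (hf : f ∈ J N) (hg : g ∈ G1 N F piv κ) :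
    g * f ∈ Ideal.span {p | p ∈ gens N F piv κ} := by
  refine Submodule.span_induction (p := fun f _ => g * f ∈ Ideal.span {p | p ∈ gens N F piv κ})
    ?_ ?_ ?_ ?_ hf
  · intro h hh
    exact Ideal.subset_span (mem_gens.2 ⟨g, hg, h, hh, rfl⟩)
  · rw [mul_zero]
    exact Ideal.zero_mem _
  · intro x y _ _ hx hy
    rw [mul_add]
    exact Ideal.add_mem _ hx hy
  · intro r x _ hx
    rw [smul_eq_mul, mul_left_comm]
    exact Ideal.mul_mem_left _ _ hx

lemma inter_mem (hN : 0 < N) {f : MvPolynomial ℕ ℚ} (h1 : f ∈ I1 N F piv κ) (h2 : f ∈ J N) :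
    f ∈ Ideal.span {p | p ∈ gens N F piv κ} := by
  have e1 := mul_H_mem h1 (mem_H.2 (Or.inl rfl))
  have e2 := G1_mul_mem (F := F) (piv := piv) (κ := κ) h2
    (mem_G1.2 (Or.inl ⟨0, hN, 0, hN, 0, hN, rfl⟩))
  have e3 := Ideal.sub_mem _ (Ideal.mul_mem_left _ (X 0 ^ 2 - 5 * X 0 + 13) e1) e2
  have e4 := Ideal.mul_mem_left _ (C (1 / 27 : ℚ)) e3
  have e5 : f = C (1 / 27 : ℚ) * ((X 0 ^ 2 - 5 * X 0 + 13) * (f * (X 0 + 2)) -
      z 0 * z 0 * z 0 * f) := by
    have : (C (1 / 27 : ℚ) : MvPolynomial ℕ ℚ) * 27 = 1 := by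
      rw [show (27 : MvPolynomial ℕ ℚ) = C 27 by rw [map_ofNat], ← map_mul]
      norm_num
    unfold z
    linear_combination (-f) * this
  rw [e5]
  exact e4

/-- **Positive direction**. -/
theorem pos_dir (hN : 0 < N) (hF : ∀ j, Bd N (F j)) (a : ℕ → ℤ) (h0 : a 0 = 1)
    (ha : ∀ j, ev (F j) a = 0) :
    ∃ f ∈ Ideal.span {p | p ∈ gens N F piv κ}, f ≠ 0 ∧ f.support.card ≤ 3 := by
  classical
  set m1 : ℕ → ℕ := fun i => 3 * (a i).natAbs with hm1
  set m2 : ℕ → ℕ := fun i => (3 * |a i| + a i).toNat with hm2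
  set m3 : ℕ → ℕ := fun i => (3 * |a i| + 3 * a i).toNat with hm3
  have h1 : ∀ i, (m1 i : ℤ) = 3 * |a i| := by
    intro i
    simp [hm1]
  have h2 : ∀ i, (m2 i : ℤ) = m1 i + a i := by
    intro i
    rw [h1, hm2]
    refine Int.toNat_of_nonneg ?_
    have := neg_abs_le (a i)
    have := abs_nonneg (a i)
    linarith
  have h3 : ∀ i, (m3 i : ℤ) = m1 i + 3 * a i := by
    intro i
    rw [h1, hm3]
    refine Int.toNat_of_nonneg ?_
    have := neg_abs_le (a i)
    linarith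
  have k1 : m1 0 = 3 := by simp [hm1, h0]
  have k2 : m2 0 = 4 := by simp [hm2, h0]
  have k3 : m3 0 = 6 := by simp [hm3, h0]
  refine ⟨tri N m1 m2 m3, inter_mem hN (tri_mem_I1 hF a ha m1 m2 m3 h2 h3)
    (tri_mem_J hN m1 m2 m3 k1 k2 k3), ?_, ?_⟩
  · intro h
    have e1 : ∀ m : ℕ → ℕ, eval (fun i => if i = 0 then (2 : ℚ) else 1) (M N m) = 2 ^ m 0 := by
      intro m
      rw [M, map_prod, Finset.prod_eq_single 0]
      · simp
      · intro i _ hi0
        simp [hi0]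
      · intro h
        exact absurd (mem_range.2 hN) h
    have e2 := congrArg (eval (fun i => if i = 0 then (2 : ℚ) else 1)) h
    rw [tri, map_add, map_sub, map_mul, map_mul, map_mul, map_ofNat, map_ofNat, map_ofNat,
      e1, e1, e1, k1, k2, k3, map_zero] at e2
    norm_num at e2
  · obtain ⟨u1, hu1⟩ := M_mon N m1
    obtain ⟨u2, hu2⟩ := M_mon N m2
    obtain ⟨u3, hu3⟩ := M_mon N m3
    have : (tri N m1 m2 m3).support ⊆ {u1, u2, u3} := by
      intro v hv
      rw [MvPolynomial.mem_support_iff] at hv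
      by_contra hcon
      simp only [Finset.mem_insert, Finset.mem_singleton, not_or] at hcon
      apply hv
      have q4 : (4 : MvPolynomial ℕ ℚ) = C 4 := by rw [map_ofNat]
      have q6 : (6 : MvPolynomial ℕ ℚ) = C 6 := by rw [map_ofNat]
      have q2 : (2 : MvPolynomial ℕ ℚ) = C 2 := by rw [map_ofNat]
      rw [tri, hu1, hu2, hu3, q4, q6, q2, C_mul_monomial, C_mul_monomial, C_mul_monomial,
        coeff_add, coeff_sub, coeff_monomial, coeff_monomial, coeff_monomial,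
        if_neg (Ne.symm hcon.1), if_neg (Ne.symm hcon.2.1), if_neg (Ne.symm hcon.2.2)]
      ring
    exact (Finset.card_le_card this).trans Finset.card_le_three

end

end Pool.Agent.MP_d3d6ea_lc
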